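import Pool.Agent.K3h82.BT.Arith

/-!
# Rational numbers with even valuations
-/

set_option autoImplicit false
set_option linter.all false

open IsDedekindDomain NumberField

namespace Pool.Agent.K3h82.FQ4

open Pool.Agent.K3h82.BT

theorem exists_v (q : ℕ) [hq : Fact q.Prime] :
    ∃ v : HeightOneSpectrum (𝓞 ℚ), v.asIdeal = Ideal.span {(q : 𝓞 ℚ)} := by
  have hq0 : (q : 𝓞 ℚ) ≠ 0 := by exact_mod_cast hq.out.ne_zero
  have hprime : Prime (q : 𝓞 ℚ) := by
    rw [← MulEquiv.prime_iff (Rat.ringOfIntegersEquiv : 𝓞 ℚ ≃+* ℤ)]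
    have h1 : Rat.ringOfIntegersEquiv (q : 𝓞 ℚ) = (q : ℤ) := map_natCast _ q
    rw [h1]
    exact Nat.prime_iff_prime_int.1 hq.out
  exact ⟨⟨Ideal.span {(q : 𝓞 ℚ)}, (Ideal.span_singleton_prime hq0).2 hprime, by
    rw [Ne, Ideal.span_singleton_eq_bot]; exact hq0⟩, rfl⟩

theorem notMem_v {q r : ℕ} [hq : Fact q.Prime] (hr : r.Prime) (hrq : r ≠ q)
    {v : HeightOneSpectrum (𝓞 ℚ)} (hv : v.asIdeal = Ideal.span {(q : 𝓞 ℚ)}) :
    (r : 𝓞 ℚ) ∉ v.asIdeal := by
  intro h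
  have hqv : (q : 𝓞 ℚ) ∈ v.asIdeal := by rw [hv]; exact Ideal.mem_span_singleton_self _
  have hcop : IsCoprime (q : ℤ) (r : ℤ) :=
    Nat.isCoprime_iff_coprime.2 ((Nat.coprime_primes hq.out hr).2 (Ne.symm hrq))
  obtain ⟨a, b, hab⟩ := hcop
  apply v.isPrime.ne_top
  rw [Ideal.eq_top_iff_one]
  have h5 : (1 : 𝓞 ℚ) = (a : 𝓞 ℚ) * (q : 𝓞 ℚ) + (b : 𝓞 ℚ) * (r : 𝓞 ℚ) := by
    have := congrArg (fun z : ℤ => (z : 𝓞 ℚ)) hab
    push_cast at this
    exact this.symm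
  rw [h5]
  exact add_mem (Ideal.mul_mem_left _ _ hqv) (Ideal.mul_mem_left _ _ h)

theorem even_padic {q : ℕ} [hq : Fact q.Prime] {v : HeightOneSpectrum (𝓞 ℚ)}
    (hv : v.asIdeal = Ideal.span {(q : 𝓞 ℚ)}) {d : ℚ} (hd : d ≠ 0)
    (h : ∃ t : WithZero (Multiplicative ℤ), v.valuation ℚ d = t ^ 2) :
    Even (padicValRat q d) := by
  have hqv : (q : 𝓞 ℚ) ∈ v.asIdeal := by rw [hv]; exact Ideal.mem_span_singleton_self _
  have hq0 : (q : 𝓞 ℚ) ≠ 0 := by exact_mod_cast hq.out.ne_zero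
  have hq0' : (q : ℚ) ≠ 0 := by exact_mod_cast hq.out.ne_zero
  obtain ⟨m, hm⟩ : ∃ m, m = padicValRat q d := ⟨_, rfl⟩
  have hqm : (q : ℚ) ^ m ≠ 0 := zpow_ne_zero _ hq0'
  have h1 := val_rat (K := ℚ) hqv (u := d / (q : ℚ) ^ m) (div_ne_zero hd hqm) (by
    rw [padicValRat.div hd hqm, padicValRat.zpow, padicValRat.self hq.out.one_lt, hm]
    ring)
  rw [Rat.cast_id] at h1
  have h2 : v.valuation ℚ (q : ℚ) = WithZero.exp (-1 : ℤ) := by
    have h3 : (q : ℚ) = algebraMap (𝓞 ℚ) ℚ (q : 𝓞 ℚ) := by rw [map_natCast]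
    rw [h3, v.valuation_of_algebraMap]
    exact v.intValuation_singleton hq0 hv
  obtain ⟨t, ht⟩ := h
  have h4 : v.valuation ℚ d = WithZero.exp (-m : ℤ) := by
    have h5 : d = d / (q : ℚ) ^ m * (q : ℚ) ^ m := by rw [div_mul_cancel₀ _ hqm]
    rw [h5, map_mul, h1, one_mul, map_zpow₀, h2, ← WithZero.exp_zsmul]
    congr 1
    simp
  have ht0 : t ≠ 0 := by
    rintro rfl
    rw [zero_pow two_ne_zero] at ht
    exact (Valuation.ne_zero_iff _).2 hd ht
  obtain ⟨j, rfl⟩ : ∃ j : ℤ, t = WithZero.exp j := ⟨WithZero.log t, (WithZero.exp_log ht0).symm⟩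
  rw [h4, ← WithZero.exp_nsmul] at ht
  have h5 := WithZero.exp_injective ht
  rw [← hm]
  refine ⟨-j, ?_⟩
  simp only [nsmul_eq_mul] at h5
  push_cast at h5
  linarith

theorem sqfree_part {p : ℕ} (hp : p.Prime) {d : ℚ} (hd : d ≠ 0)
    (h : ∀ q : ℕ, q.Prime → q ≠ 2 → q ≠ p → Even (padicValRat q d)) :
    ∃ (d₀ : ℤ) (r : ℚ), r ≠ 0 ∧ d₀ ∣ 2 * p ∧ d = d₀ * r ^ 2 := by
  classical
  obtain ⟨n, hn⟩ : ∃ n : ℤ, n = d.num * d.den := ⟨_, rfl⟩
  have hnum : d.num ≠ 0 := Rat.num_ne_zero.2 hd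
  have hden : (d.den : ℤ) ≠ 0 := by exact_mod_cast d.den_nz
  have hdenQ : (d.den : ℚ) ≠ 0 := by exact_mod_cast d.den_nz
  have hn0 : n ≠ 0 := by rw [hn]; exact mul_ne_zero hnum hden
  have hnQ : (n : ℚ) = d * (d.den : ℚ) ^ 2 := by
    rw [hn]
    push_cast
    have h1 : d * (d.den : ℚ) = (d.num : ℚ) := Rat.mul_den_eq_num d
    rw [← h1]
    ring
  obtain ⟨a, b, hab, ha⟩ := Nat.sq_mul_squarefree n.natAbs
  have hn0' : n.natAbs ≠ 0 := Int.natAbs_ne_zero.2 hn0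
  have hb0 : b ≠ 0 := by
    rintro rfl
    rw [zero_pow two_ne_zero, zero_mul] at hab
    exact hn0' hab.symm
  have ha0 : a ≠ 0 := by
    rintro rfl
    rw [mul_zero] at hab
    exact hn0' hab.symm
  -- the primes which divide `a`
  have hpr : ∀ q : ℕ, q.Prime → q ∣ a → q = 2 ∨ q = p := by
    intro q hq hqa
    by_contra hcon
    push Not at hcon
    haveI : Fact q.Prime := ⟨hq⟩
    have h1 := h q hq hcon.1 hcon.2
    have h2 : padicValRat q (n : ℚ) = padicValRat q d + 2 * padicValRat q (d.den : ℚ) := by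
      rw [hnQ, padicValRat.mul hd (pow_ne_zero _ hdenQ), padicValRat.pow]
      push_cast
      ring
    have h3 : padicValRat q (n : ℚ) = (padicValNat q n.natAbs : ℤ) := by
      rw [padicValRat.of_int]
      rfl
    have h4 : padicValNat q n.natAbs = 2 * padicValNat q b + padicValNat q a := by
      rw [← hab, padicValNat.mul (pow_ne_zero 2 hb0) ha0, padicValNat.pow]
    have h5 : padicValNat q a = 1 := by
      have h6 : 1 ≤ padicValNat q a := one_le_padicValNat_of_dvd ha0 hqa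
      have h7 : padicValNat q a ≤ 1 := by
        by_contra hc
        push Not at hc
        have h8 : q ^ 2 ∣ a := (padicValNat_dvd_iff_le ha0).2 hc
        rw [pow_two] at h8
        have h9 := ha q h8
        exact hq.one_lt.ne' (Nat.isUnit_iff.1 h9)
      omega
    rw [h3, h4, h5] at h2
    push_cast at h2
    obtain ⟨m, hm⟩ := h1
    omega
  have hdvd : a ∣ 2 * p := by
    have h1 := Nat.prod_primeFactors_of_squarefree ha
    have h2 : a.primeFactors ⊆ ({2, p} : Finset ℕ) := by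
      intro q hq
      rw [Nat.mem_primeFactors] at hq
      rw [Finset.mem_insert, Finset.mem_singleton]
      exact hpr q hq.1 hq.2.1
    have h3 := Finset.prod_dvd_prod_of_subset _ _ (fun q : ℕ => q) h2
    rw [h1] at h3
    refine h3.trans ?_
    by_cases hp2 : 2 = p
    · rw [← hp2, Finset.pair_eq_singleton, Finset.prod_singleton]
      exact ⟨2, rfl⟩
    · rw [Finset.prod_pair hp2]
  refine ⟨n.sign * a, b / d.den, div_ne_zero (by exact_mod_cast hb0) hdenQ, ?_, ?_⟩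
  · have h1 : (a : ℤ) ∣ 2 * p := by exact_mod_cast hdvd
    rcases lt_or_gt_of_ne hn0 with h2 | h2
    · rw [Int.sign_eq_neg_one_of_neg h2, neg_one_mul]
      exact (neg_dvd).2 h1
    · rw [Int.sign_eq_one_of_pos h2, one_mul]
      exact h1
  · have h1 : (n : ℚ) = ((n.sign : ℤ) : ℚ) * ((b : ℚ) ^ 2 * a) := by
      have h2 : n = n.sign * ((b ^ 2 * a : ℕ) : ℤ) := by
        rw [hab]
        exact (Int.sign_mul_natAbs n).symm
      have h3 := congrArg (fun z : ℤ => (z : ℚ)) h2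
      push_cast at h3
      exact h3
    rw [div_pow]
    push_cast
    have h2 : d = n / (d.den : ℚ) ^ 2 := by
      rw [hnQ, mul_div_cancel_right₀ _ (pow_ne_zero 2 hdenQ)]
    rw [mul_div_assoc']
    conv_lhs => rw [h2, h1]
    ring

end Pool.Agent.K3h82.FQ4
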