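import Pool.Agent.K3h82.BT.Abs

/-!
# Adjoining fixed elements to the base field of a section
-/

set_option autoImplicit false
set_option linter.all false

open Polynomial FF Pool.Agent.Y157.PS Pool.Agent.TH954

namespace Pool.Agent.K3h82.FQ4

open Pool.Agent.Y158.FQ (extSec extPlc extGiven extPlc_val extPlc_mem extSec_apply alg_over)

section alg

variable {k F Ω : Type} [Field k] [Field F] [Field Ω] [Algebra k F] [Algebra F Ω] [Algebra k Ω]
  [IsScalarTower k F Ω]

/-- algebraicity of a subfield over `k(x)` -/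
theorem alg_down {x : F}
    (h : Algebra.IsAlgebraic (IntermediateField.adjoin k {algebraMap F Ω x}) Ω) :
    Algebra.IsAlgebraic (IntermediateField.adjoin k {x}) F := by
  let φ : F →ₐ[k] Ω := IsScalarTower.toAlgHom k F Ω
  have hφ : ∀ z, φ z = algebraMap F Ω z := fun z => rfl
  have hmap : (IntermediateField.adjoin k {x}).map φ =
      IntermediateField.adjoin k {algebraMap F Ω x} := by
    rw [IntermediateField.adjoin_map, Set.image_singleton]
    rfl
  have hmem : ∀ z : IntermediateField.adjoin k {algebraMap F Ω x},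
      ∃ w : IntermediateField.adjoin k {x}, algebraMap F Ω (w : F) = (z : Ω) := by
    rintro ⟨z, hz⟩
    rw [← hmap] at hz
    obtain ⟨w, hw, hwz⟩ := hz
    exact ⟨⟨w, hw⟩, hwz⟩
  choose f hf using hmem
  have hinj : Function.Injective (fun w : IntermediateField.adjoin k {x} =>
      algebraMap F Ω (w : F)) := fun a b h =>
    Subtype.ext ((algebraMap F Ω).injective h)
  let i : IntermediateField.adjoin k {algebraMap F Ω x} →+* IntermediateField.adjoin k {x} :=
    { toFun := f
      map_one' := hinj ((hf 1).trans (map_one (algebraMap F Ω)).symm)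
      map_mul' := fun a b => hinj ((hf (a * b)).trans (by
        change (a : Ω) * (b : Ω) = algebraMap F Ω ((f a : F) * (f b : F))
        rw [map_mul, hf, hf]))
      map_zero' := hinj ((hf 0).trans (map_zero (algebraMap F Ω)).symm)
      map_add' := fun a b => hinj ((hf (a + b)).trans (by
        change (a : Ω) + (b : Ω) = algebraMap F Ω ((f a : F) + (f b : F))
        rw [map_add, hf, hf])) }
  refine ⟨fun z => ?_⟩
  obtain ⟨q, hq, hqz⟩ := h.isAlgebraic (algebraMap F Ω z)
  refine ⟨q.map i, (Polynomial.map_ne_zero_iff i.injective).2 hq, ?_⟩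
  apply (algebraMap F Ω).injective
  rw [aeval_def, eval₂_map, hom_eval₂, map_zero, ← hqz, aeval_def]
  congr 1
  ext t
  exact hf t

/-- change of the transcendental element -/
theorem alg_chg {X x : Ω} (hX : Algebra.IsAlgebraic (IntermediateField.adjoin k {X}) Ω)
    {n : ℕ} (hn : 0 < n) (h : X ^ n ∈ IntermediateField.adjoin k {x}) :
    Algebra.IsAlgebraic (IntermediateField.adjoin k {x}) Ω := by
  obtain ⟨E₁, hE₁⟩ : ∃ E₁ : IntermediateField k Ω, E₁ = IntermediateField.adjoin k {x} := ⟨_, rfl⟩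
  rw [← hE₁] at h ⊢
  have hXalg : IsAlgebraic E₁ X := by
    have h1 : IsAlgebraic E₁ (X ^ n) := isAlgebraic_algebraMap (⟨X ^ n, h⟩ : E₁)
    exact h1.of_pow hn
  let E₂ : IntermediateField E₁ Ω := IntermediateField.adjoin E₁ {X}
  haveI : Algebra.IsAlgebraic E₁ E₂ := IntermediateField.isAlgebraic_adjoin (by
    intro t ht
    rw [Set.mem_singleton_iff] at ht
    rw [ht]
    exact hXalg.isIntegral)
  have h2 : Algebra.IsAlgebraic (E₂.restrictScalars k) Ω :=
    alg_over (k := k) (F := Ω) (Ω := Ω) (x := X) hX (E₂.restrictScalars k)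
      (IntermediateField.mem_adjoin_simple_self E₁ X)
  haveI : Algebra.IsAlgebraic E₂ Ω := h2
  exact Algebra.IsAlgebraic.trans E₁ E₂ Ω

end alg

section ext

variable {k F Ω B C Lv : Type} [Field k] [Field F] [Field Ω] [Field B]
  [Field C] [Algebra k F] [Algebra F Ω] [Algebra k Ω] [IsScalarTower k F Ω]
  [Algebra k B] [Algebra k C] [Algebra.IsAlgebraic k B] [Algebra.IsAlgebraic F Ω] [Field Lv]
  [Algebra Lv C]

/-- fixed elements can be adjoined to the base field of a section -/
theorem exists_ext {N : IntermediateField F Ω} (s : GalSection k F N B) (p : Plc k N C)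
    (hpv : s.GivenBy Lv p) (S : Set N) (hS : ∀ z ∈ S, ∀ g, s.s g z = z) :
    ∃ (F' : Type) (_ : Field F') (_ : Algebra k F') (_ : Algebra F' Ω) (_ : IsScalarTower k F' Ω)
      (_ : Algebra.IsAlgebraic F' Ω) (N' : IntermediateField F' Ω) (e : N ≃+* N')
      (s' : GalSection k F' N' B) (p' : Plc k N' C),
      (∀ z : N, ((e z : N') : Ω) = (z : Ω)) ∧ (∀ z ∈ S, ∃ r : F', algebraMap F' Ω r = (z : Ω)) ∧
      s'.GivenBy Lv p' ∧ (∀ z c, p'.val (e z) c ↔ p.val z c) ∧
      (∀ z, e z ∈ p'.W ↔ z ∈ p.W) ∧ (∀ g z, s'.s g (e z) = e (s.s g z)) ∧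
      (∀ z, z ∈ N' ↔ z ∈ N) ∧ (∀ f : F, ∃ r : F', algebraMap F' Ω r = algebraMap F Ω f) := by
  let F' : IntermediateField F Ω := IntermediateField.adjoin F ((fun z : N => (z : Ω)) '' S)
  have hF'N : F' ≤ N := by
    rw [IntermediateField.adjoin_le_iff]
    rintro _ ⟨z, -, rfl⟩
    exact z.2
  haveI hF'Ω : Algebra.IsAlgebraic F' Ω := Algebra.IsAlgebraic.tower_top (K := F) F'
  letI ikF : Algebra k F' := ((algebraMap F F').comp (algebraMap k F)).toAlgebra
  haveI : IsScalarTower k F' Ω := IsScalarTower.of_algebraMap_eq fun c => by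
    rw [IsScalarTower.algebraMap_apply k F Ω]
    rfl
  let N' : IntermediateField F' Ω := IntermediateField.extendScalars hF'N
  have hNN' : ∀ z, z ∈ N' ↔ z ∈ N := fun z => IntermediateField.mem_extendScalars hF'N
  let e : N ≃+* N' :=
    { toFun := fun z => ⟨(z : Ω), (hNN' _).2 z.2⟩
      invFun := fun z => ⟨(z : Ω), (hNN' _).1 z.2⟩
      left_inv := fun z => rfl
      right_inv := fun z => rfl
      map_mul' := fun _ _ => rfl
      map_add' := fun _ _ => rfl }
  have he : ∀ z : N, ((e z : N') : Ω) = (z : Ω) := fun z => rfl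
  have hkN : ∀ c : k, ((algebraMap k N c : N) : Ω) = algebraMap k Ω c := fun c => rfl
  have hKB : ∀ c : k, ((s.j (algebraMap k B c) : N) : Ω) = algebraMap k Ω c := fun c => by
    rw [s.j.commutes]
    exact hkN c
  have hKC : ∀ c : k, p.val (s.j (algebraMap k B c)) (algebraMap k C c) := fun c => by
    rw [s.j.commutes]
    exact Plc.val_alg c
  have hfix : ∀ (r : F') (g : B ≃ₐ[k] B) (z : N), (z : Ω) = algebraMap F' Ω r →
      s.s (g.restrictScalars k) z = z := by
    intro r g z hz
    let T : Subfield Ω := Subfield.map (algebraMap N Ω)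
      (RingHom.eqLocusField ((s.s (g.restrictScalars k) : N ≃ₐ[F] N) : N →+* N) (RingHom.id N))
    have hT : ∀ t : N, s.s (g.restrictScalars k) t = t → (t : Ω) ∈ T := fun t ht => ⟨t, ht, rfl⟩
    have h1 : (r : Ω) ∈ T := by
      refine adjoin_le_sub (T := T) (fun q => ?_) (fun t ht => ?_) _ r.2
      · exact hT (algebraMap F N q) ((s.s (g.restrictScalars k)).commutes q)
      · obtain ⟨w, hw, rfl⟩ := ht
        exact hT w (hS w hw _)
    obtain ⟨t, ht, htr⟩ := h1
    have h2 : t = z := Subtype.ext (htr.trans hz.symm)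
    rw [← h2]
    exact ht
  refine ⟨F', inferInstance, ikF, inferInstance, inferInstance, hF'Ω, N', e,
    extSec e he s hKB hfix, extPlc e he s p hKB hKC, he, fun z hz =>
    ⟨⟨(z : Ω), IntermediateField.subset_adjoin F _ ⟨z, hz, rfl⟩⟩, rfl⟩,
    extGiven e he s p hKB hKC hfix Lv hpv, fun z c => ?_, fun z => ?_, fun g z => ?_, hNN',
    fun f => ⟨algebraMap F F' f, rfl⟩⟩
  · rw [extPlc_val, e.symm_apply_apply]
  · rw [extPlc_mem, e.symm_apply_apply]
  · rw [extSec_apply]
    rfl

end ext

end Pool.Agent.K3h82.FQ4
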