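import Pool.Agent.K3h82.FQ4.Tow

/-!
# The covering fields of `a ^ 2 u ^ 4 + b ^ 2 v ^ 4 = 1` and of `d y ^ 2 = x ^ 5 - x` agree
-/

set_option autoImplicit false
set_option linter.all false

open Polynomial FF Pool.Agent.Y157.PS

namespace Pool.Agent.K3h82.FQ4

open Pool.Agent.K3h82.BT

section fin

variable {κ : Type} [Field κ]

open Classical in
/-- the roots of `x ^ 3 - x` -/
noncomputable def T3 (κ : Type) [Field κ] : Finset κ := {0, 1, -1}

theorem mem_T3 {e : κ} : e ∈ T3 κ ↔ e = 0 ∨ e = 1 ∨ e = -1 := by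
  classical
  unfold T3
  simp only [Finset.mem_insert, Finset.mem_singleton]

open Classical in
/-- the branch points of `y ^ 2 = x ^ 3 - x` in the coordinate `1 / (x - a)` -/
noncomputable def B3 (a : κ) : Finset κ := insert 0 (shf a (T3 κ))

theorem T3_sub : T3 κ ⊆ T5 κ := by
  intro e he
  rw [mem_T3] at he
  rw [mem_T5]
  rcases he with h | h | h
  · rw [h]; ring
  · rw [h]; ring
  · rw [h]; ring

theorem B3_sub {a : κ} : B3 a ⊆ B5 a := by
  classical
  intro e he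
  unfold B3 at he
  unfold B5
  rw [Finset.mem_insert] at he ⊢
  rcases he with h | h
  · exact Or.inl h
  · right
    unfold shf at h ⊢
    rw [Finset.mem_image] at h ⊢
    obtain ⟨b, hb, rfl⟩ := h
    exact ⟨b, T3_sub hb, rfl⟩

theorem B5_cov {a e : κ} (he : e ∈ B5 a) : e ∈ B3 a ∨ e ∈ shf a (T4 κ) := by
  classical
  unfold B5 at he
  unfold B3
  rw [Finset.mem_insert] at he ⊢
  rcases he with h | h
  · exact Or.inl (Or.inl h)
  · unfold shf at h ⊢
    rw [Finset.mem_image] at h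
    obtain ⟨b, hb, rfl⟩ := h
    unfold T5 at hb
    rw [Finset.mem_insert] at hb
    rcases hb with hb | hb
    · left; right
      rw [Finset.mem_image]
      exact ⟨b, mem_T3.2 (Or.inl hb), rfl⟩
    · right
      rw [Finset.mem_image]
      exact ⟨b, hb, rfl⟩

variable [CharZero κ]

theorem card_T3 : (T3 κ).card = 3 := by
  classical
  have h1 : (1 : κ) ≠ -1 := by
    intro h
    have h2 : (2 : κ) = 0 := by linear_combination h
    exact two_ne_zero h2
  unfold T3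
  rw [Finset.card_insert_of_notMem, Finset.card_insert_of_notMem, Finset.card_singleton]
  · rw [Finset.mem_singleton]; exact h1
  · rw [Finset.mem_insert, Finset.mem_singleton]
    rintro (h | h)
    · exact zero_ne_one h
    · exact one_ne_zero (neg_eq_zero.1 h.symm)

theorem card_B3 {a : κ} (ha : a ∉ T3 κ) : (B3 a).card = 4 := by
  classical
  unfold B3
  rw [Finset.card_insert_of_notMem (zero_notMem_shf ha), card_shf, card_T3]

theorem prod_T3 {M : Type} [Field M] [Algebra κ M] (X : M) :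
    ∏ e ∈ T3 κ, (X - algebraMap κ M e) = X ^ 3 - X := by
  classical
  have h1 : (1 : κ) ≠ -1 := by
    intro h
    have h2 : (2 : κ) = 0 := by linear_combination h
    exact two_ne_zero h2
  unfold T3
  rw [Finset.prod_insert, Finset.prod_insert, Finset.prod_singleton, map_zero, map_neg, map_one]
  · ring
  · rw [Finset.mem_singleton]; exact h1
  · rw [Finset.mem_insert, Finset.mem_singleton]
    rintro (h | h)
    · exact zero_ne_one h
    · exact one_ne_zero (neg_eq_zero.1 h.symm)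

theorem prod_B3 {M : Type} [Field M] [Algebra κ M] {a : κ} (ha : a ∉ T3 κ) {X : M}
    (hX : X - algebraMap κ M a ≠ 0) :
    ∏ b ∈ B3 a, ((X - algebraMap κ M a)⁻¹ - algebraMap κ M b) =
      (X ^ 3 - X) * ((X - algebraMap κ M a)⁻¹) ^ 4 * (algebraMap κ M (a ^ 3 - a))⁻¹ := by
  classical
  unfold B3
  rw [Finset.prod_insert (zero_notMem_shf ha), prod_shf ha hX, prod_T3, prod_T3, card_T3, map_zero,
    map_sub, map_pow]
  ring

end fin

section mp

variable {κ Ω : Type} [Field κ] [Field Ω] [Algebra κ Ω] {X Y W₁ W₂ z : Ω}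

theorem adjoin_mul2 {R Ω : Type} [Field R] [Field Ω] [Algebra R Ω] {Y Z : Ω} {b c : R}
    (hb : b ≠ 0) (hc : c ≠ 0) :
    IntermediateField.adjoin R {algebraMap R Ω b * Y, algebraMap R Ω c * Z} =
      IntermediateField.adjoin R {Y, Z} := by
  have key : ∀ (E : IntermediateField R Ω) (c : R) (Y : Ω), c ≠ 0 →
      (algebraMap R Ω c * Y ∈ E ↔ Y ∈ E) := by
    intro E c Y hc
    have hc' : algebraMap R Ω c ≠ 0 := (_root_.map_ne_zero _).2 hc
    constructor
    · intro h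
      have h1 : algebraMap R Ω c⁻¹ * (algebraMap R Ω c * Y) = Y := by
        rw [map_inv₀, inv_mul_cancel_left₀ hc']
      rw [← h1]
      exact mul_mem (E.algebraMap_mem _) h
    · intro h
      exact mul_mem (E.algebraMap_mem _) h
  apply le_antisymm
  · rw [IntermediateField.adjoin_le_iff]
    rintro t (rfl | ht)
    · exact (key _ b Y hb).2 (IntermediateField.subset_adjoin R _ (by simp))
    · rw [Set.mem_singleton_iff] at ht
      rw [ht]
      exact (key _ c Z hc).2 (IntermediateField.subset_adjoin R _ (by simp))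
  · rw [IntermediateField.adjoin_le_iff]
    rintro t (rfl | ht)
    · exact (key _ b t hb).1 (IntermediateField.subset_adjoin R _ (by simp))
    · rw [Set.mem_singleton_iff] at ht
      rw [ht]
      exact (key _ c Z hc).1 (IntermediateField.subset_adjoin R _ (by simp))

variable [IsAlgClosed κ] [CharZero κ] [IsAlgClosed Ω]

theorem tow5 (hX : Transcendental κ X)
    (halg : Algebra.IsAlgebraic (IntermediateField.adjoin κ {X}) Ω) {d D₁ D₂ : κ} (hd : d ≠ 0)
    (hD₁ : D₁ ≠ 0) (hD₂ : D₂ ≠ 0) (hY : algebraMap κ Ω d * Y ^ 2 = X ^ 5 - X)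
    (hW₁ : algebraMap κ Ω D₁ * W₁ ^ 2 = X ^ 3 - X)
    (hW₂ : algebraMap κ Ω D₂ * W₂ ^ 2 = X ^ 4 - 1) :
    z ∈ maxPro 2 κ (IntermediateField.adjoin (IntermediateField.adjoin κ {X}) {W₁, W₂}) Ω ↔
      MP κ X Y z := by
  haveI h2p : Fact (Nat.Prime 2) := ⟨Nat.prime_two⟩
  haveI : IsAlgClosure (IntermediateField.adjoin κ {X}) Ω := ⟨inferInstance, halg⟩
  obtain ⟨a, ha⟩ : ∃ a : κ, a = 2 := ⟨_, rfl⟩
  have ha5 : a ^ 5 - a ≠ 0 := by
    rw [ha]
    norm_num
  have ha4 : a ^ 4 - 1 ≠ 0 := by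
    rw [ha]
    norm_num
  have ha3 : a ^ 3 - a ≠ 0 := by
    rw [ha]
    norm_num
  have haT5 := notMem_T5 ha5
  have haT4 : a ∉ T4 κ := by
    rw [mem_T4]
    exact fun h => ha4 (sub_eq_zero.2 h)
  have haT3 : a ∉ T3 κ := fun h => haT5 (T3_sub h)
  have hrat := ratF_adj hX
  obtain ⟨x', hx'⟩ : ∃ x' : IntermediateField.adjoin κ {X},
    x' = ⟨X, IntermediateField.mem_adjoin_simple_self _ _⟩ := ⟨_, rfl⟩
  rw [← hx'] at hrat
  have hxa : x' - algebraMap κ _ a ≠ 0 := by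
    intro h0
    apply hrat.trans
    rw [sub_eq_zero.1 h0]
    exact isAlgebraic_algebraMap a
  have hx'Ω : algebraMap (IntermediateField.adjoin κ {X}) Ω x' = X := by rw [hx']; rfl
  have hxaΩ : X - algebraMap κ Ω a ≠ 0 := by
    have h1 := (_root_.map_ne_zero (algebraMap (IntermediateField.adjoin κ {X}) Ω)).2 hxa
    rwa [map_sub, hx'Ω, ← IsScalarTower.algebraMap_apply] at h1
  have htΩ : algebraMap (IntermediateField.adjoin κ {X}) Ω (x' - algebraMap κ _ a)⁻¹ =
      (X - algebraMap κ Ω a)⁻¹ := by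
    rw [map_inv₀, map_sub, hx'Ω, ← IsScalarTower.algebraMap_apply]
  -- the constants
  have hcst : ∀ c b : κ, c ≠ 0 → b ≠ 0 → ∃ δ : κ, δ ≠ 0 ∧ δ ^ 2 * b = c := by
    intro c b hc hb
    obtain ⟨δ, hδ⟩ := IsAlgClosed.exists_pow_nat_eq (c / b) two_pos
    refine ⟨δ, ?_, by rw [hδ, div_mul_cancel₀ _ hb]⟩
    rintro rfl
    rw [zero_pow two_ne_zero] at hδ
    exact div_ne_zero hc hb hδ.symm
  obtain ⟨δ, hδ0, hδ⟩ := hcst d (a ^ 5 - a) hd ha5
  obtain ⟨ε, hε0, hε⟩ := hcst D₂ (a ^ 4 - 1) hD₂ ha4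
  obtain ⟨θ, hθ0, hθ⟩ := hcst D₁ (a ^ 3 - a) hD₁ ha3
  obtain ⟨c, hc⟩ : ∃ c : IntermediateField.adjoin κ {X},
      c = algebraMap κ _ δ * (x' - algebraMap κ _ a)⁻¹ ^ 3 := ⟨_, rfl⟩
  obtain ⟨b, hb⟩ : ∃ b : IntermediateField.adjoin κ {X},
      b = algebraMap κ _ ε * (x' - algebraMap κ _ a)⁻¹ ^ 2 := ⟨_, rfl⟩
  obtain ⟨b', hb'⟩ : ∃ b : IntermediateField.adjoin κ {X},
      b = algebraMap κ _ θ * (x' - algebraMap κ _ a)⁻¹ ^ 2 := ⟨_, rfl⟩
  have hc0 : c ≠ 0 := by
    rw [hc]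
    exact mul_ne_zero ((_root_.map_ne_zero _).2 hδ0) (pow_ne_zero _ (inv_ne_zero hxa))
  have hb0 : b ≠ 0 := by
    rw [hb]
    exact mul_ne_zero ((_root_.map_ne_zero _).2 hε0) (pow_ne_zero _ (inv_ne_zero hxa))
  have hb0' : b' ≠ 0 := by
    rw [hb']
    exact mul_ne_zero ((_root_.map_ne_zero _).2 hθ0) (pow_ne_zero _ (inv_ne_zero hxa))
  have hadj := adjoin_mul (Ω := Ω) (Y := Y) hc0
  have hadj' := adjoin_mul2 (Ω := Ω) (Y := W₁) (Z := W₂) hb0' hb0
  have hYt : (algebraMap _ Ω c * Y) ^ 2 = ∏ e ∈ B5 a, (algebraMap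
      (IntermediateField.adjoin κ {X}) Ω
      (x' - algebraMap κ _ a)⁻¹ - algebraMap κ Ω e) := by
    rw [htΩ, prod_B5 haT5 hxaΩ, ← hY, hc, map_mul, map_pow, htΩ,
      ← IsScalarTower.algebraMap_apply]
    have h2 : algebraMap κ Ω (a ^ 5 - a) ≠ 0 := (_root_.map_ne_zero _).2 ha5
    rw [← hδ, map_mul, map_pow]
    generalize algebraMap κ Ω (a ^ 5 - a) = A at h2 ⊢
    field_simp
  have hZ₂ : (algebraMap _ Ω b * W₂) ^ 2 = ∏ e ∈ shf a (T4 κ), (algebraMap
      (IntermediateField.adjoin κ {X}) Ω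
      (x' - algebraMap κ _ a)⁻¹ - algebraMap κ Ω e) := by
    rw [htΩ, prod_A4 haT4 hxaΩ, ← hW₂, hb, map_mul, map_pow, htΩ,
      ← IsScalarTower.algebraMap_apply]
    have h2 : algebraMap κ Ω (a ^ 4 - 1) ≠ 0 := (_root_.map_ne_zero _).2 ha4
    rw [← hε, map_mul, map_pow]
    generalize algebraMap κ Ω (a ^ 4 - 1) = A at h2 ⊢
    field_simp
  have hZ₁ : (algebraMap _ Ω b' * W₁) ^ 2 = ∏ e ∈ B3 a, (algebraMap
      (IntermediateField.adjoin κ {X}) Ω
      (x' - algebraMap κ _ a)⁻¹ - algebraMap κ Ω e) := by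
    rw [htΩ, prod_B3 haT3 hxaΩ, ← hW₁, hb', map_mul, map_pow, htΩ,
      ← IsScalarTower.algebraMap_apply]
    have h2 : algebraMap κ Ω (a ^ 3 - a) ≠ 0 := (_root_.map_ne_zero _).2 ha3
    rw [← hθ, map_mul, map_pow]
    generalize algebraMap κ Ω (a ^ 3 - a) = A at h2 ⊢
    field_simp
  have h1 := tow (ℓ := 2) (Ω := Ω) (ratF_inv hrat a) (A₁ := B3 a) (A₂ := shf a (T4 κ))
    (B := B5 a) B3_sub A4_sub (fun e he => B5_cov he)
    (by rw [card_B3 haT3]; norm_num) (by rw [card_shf, card_T4]; norm_num)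
    (by rw [← Finset.card_pos, card_B3 haT3]; norm_num)
    (by rw [← Finset.card_pos, card_shf, card_T4]; norm_num)
    (by rw [card_B5 haT5]; norm_num) (by rw [card_B5 haT5]; norm_num) hZ₁ hZ₂ hYt z
  rw [hadj, hadj'] at h1
  exact h1

end mp

section alg

variable {Ω : Type} [Field Ω]

/-- the equations between the functions on the two curves -/
theorem alg4 {A B u v : Ω} (hA : A ≠ 0) (hB : B ≠ 0) (hu : u ≠ 0) (h1 : 1 - A * u ^ 2 ≠ 0)
    (h : A ^ 2 * u ^ 4 + B ^ 2 * v ^ 4 = 1) :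
    (2 * A * B) * (u * v / (1 - A * u ^ 2)) ^ 2 =
      (B * v ^ 2 / (1 - A * u ^ 2)) ^ 3 - B * v ^ 2 / (1 - A * u ^ 2) ∧
    A * (2 * u / (1 - A * u ^ 2)) ^ 2 = (B * v ^ 2 / (1 - A * u ^ 2)) ^ 4 - 1 ∧
    (B * v ^ 2 / (1 - A * u ^ 2)) ^ 2 + 1 = 2 / (1 - A * u ^ 2) := by
  have h2 : (B * v ^ 2 / (1 - A * u ^ 2)) ^ 2 = (1 + A * u ^ 2) / (1 - A * u ^ 2) := by
    rw [div_pow, div_eq_div_iff (pow_ne_zero 2 h1) h1]
    linear_combination (1 - A * u ^ 2) * h
  refine ⟨?_, ?_, ?_⟩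
  · have h3 : (B * v ^ 2 / (1 - A * u ^ 2)) ^ 3 - B * v ^ 2 / (1 - A * u ^ 2) =
        B * v ^ 2 / (1 - A * u ^ 2) * ((B * v ^ 2 / (1 - A * u ^ 2)) ^ 2 - 1) := by ring
    rw [h3, h2]
    field_simp
    ring
  · have h3 : (B * v ^ 2 / (1 - A * u ^ 2)) ^ 4 = ((B * v ^ 2 / (1 - A * u ^ 2)) ^ 2) ^ 2 := by ring
    rw [h3, h2]
    field_simp
    ring
  · rw [h2]
    field_simp
    ring

end alg

section geo

variable {k Ω : Type} [Field k] [CharZero k] [Field Ω] [Algebra k Ω] [IsAlgClosed Ω]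

/-- **the covering fields of the two curves agree** -/
theorem geo4 {a b d : k} (ha : a ≠ 0) (hb : b ≠ 0) (hd : d ≠ 0) {u v x y : Ω}
    (hu : Transcendental k u)
    (halg : Algebra.IsAlgebraic (IntermediateField.adjoin (algebraicClosure k Ω) {x}) Ω)
    (huv : algebraMap k Ω a ^ 2 * u ^ 4 + algebraMap k Ω b ^ 2 * v ^ 4 = 1)
    (hx : x = algebraMap k Ω b * v ^ 2 / (1 - algebraMap k Ω a * u ^ 2))
    (hxt : Transcendental k x)
    (hy : algebraMap k Ω d * y ^ 2 = x ^ 5 - x) (z : Ω) :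
    z ∈ geomPro 2 k (IntermediateField.adjoin k {u, v}) Ω ↔
      z ∈ geomPro 2 k (IntermediateField.adjoin k {x, y}) Ω := by
  have hac : IsAlgClosure k (algebraicClosure k Ω) := inferInstance
  have hkb : IsAlgClosed (algebraicClosure k Ω) := hac.1
  have hch : CharZero (algebraicClosure k Ω) :=
    charZero_of_injective_algebraMap (algebraMap k (algebraicClosure k Ω)).injective
  haveI : CharZero Ω := charZero_of_injective_algebraMap (algebraMap k Ω).injective
  obtain ⟨A, hA⟩ : ∃ A, A = algebraMap k Ω a := ⟨_, rfl⟩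
  obtain ⟨B, hB⟩ : ∃ B, B = algebraMap k Ω b := ⟨_, rfl⟩
  have hA0 : A ≠ 0 := by rw [hA]; exact (_root_.map_ne_zero _).2 ha
  have hB0 : B ≠ 0 := by rw [hB]; exact (_root_.map_ne_zero _).2 hb
  rw [← hA, ← hB] at huv hx
  have hu0 : u ≠ 0 := by
    rintro rfl
    exact hu isAlgebraic_zero
  have h1 : 1 - A * u ^ 2 ≠ 0 := by
    intro h0
    apply hu
    have h2 : IsAlgebraic k (u ^ 2) := by
      have h3 : u ^ 2 = algebraMap k Ω a⁻¹ := by
        rw [map_inv₀, ← hA]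
        refine eq_inv_of_mul_eq_one_left ?_
        linear_combination -h0
      rw [h3]
      exact isAlgebraic_algebraMap _
    exact h2.of_pow two_pos
  have h2Ω : (2 : Ω) ≠ 0 := two_ne_zero
  obtain ⟨e1, e2, e3⟩ := alg4 hA0 hB0 hu0 h1 huv
  rw [← hx] at e1 e2 e3
  obtain ⟨w₁, hw₁⟩ : ∃ w₁, w₁ = u * v / (1 - A * u ^ 2) := ⟨_, rfl⟩
  obtain ⟨w₂, hw₂⟩ : ∃ w₂, w₂ = 2 * u / (1 - A * u ^ 2) := ⟨_, rfl⟩
  rw [← hw₁] at e1
  rw [← hw₂] at e2
  have hx21 : x ^ 2 + 1 ≠ 0 := by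
    rw [e3]
    exact div_ne_zero h2Ω h1
  have hw20 : w₂ ≠ 0 := by
    rw [hw₂]
    exact div_ne_zero (mul_ne_zero h2Ω hu0) h1
  have huw : u = w₂ / (x ^ 2 + 1) := by
    rw [e3, hw₂, div_div_div_cancel_right₀ h1, mul_div_cancel_left₀ _ h2Ω]
  have hvw : v = 2 * w₁ / w₂ := by
    rw [hw₁, hw₂, ← mul_div_assoc, div_div_div_cancel_right₀ h1, ← mul_assoc,
      mul_div_cancel_left₀ _ (mul_ne_zero h2Ω hu0)]
  have hdκ : algebraMap k (algebraicClosure k Ω) d ≠ 0 := (_root_.map_ne_zero _).2 hd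
  have hD₁ : algebraMap k (algebraicClosure k Ω) (2 * a * b) ≠ 0 :=
    (_root_.map_ne_zero _).2 (mul_ne_zero (mul_ne_zero two_ne_zero ha) hb)
  have hD₂ : algebraMap k (algebraicClosure k Ω) a ≠ 0 := (_root_.map_ne_zero _).2 ha
  have hgp := gp_iff (k := k) (F := Ω) (Ω := Ω) (x := x) (y := y) (z := z)
  have ht := tow5 (κ := algebraicClosure k Ω) (Ω := Ω) (z := z) (trans_up hxt) halg hdκ hD₁ hD₂
    (Y := y) (W₁ := w₁) (W₂ := w₂)
    (by rw [← IsScalarTower.algebraMap_apply]; exact hy)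
    (by rw [← IsScalarTower.algebraMap_apply, map_mul, map_mul, map_ofNat, ← hA, ← hB]; exact e1)
    (by rw [← IsScalarTower.algebraMap_apply, ← hA]; exact e2)
  have hgp' : z ∈ geomPro 2 k (IntermediateField.adjoin k {x, y}) Ω ↔
    MP (algebraicClosure k Ω) x y z := hgp
  rw [hgp', ← ht]
  -- the fields
  obtain ⟨F₁, hF₁⟩ : ∃ F₁ : IntermediateField k Ω, F₁ = IntermediateField.adjoin k {u, v} :=
    ⟨_, rfl⟩
  rw [← hF₁]
  have huF : u ∈ F₁ := by rw [hF₁]; exact IntermediateField.subset_adjoin k _ (by simp)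
  have hvF : v ∈ F₁ := by rw [hF₁]; exact IntermediateField.subset_adjoin k _ (by simp)
  obtain ⟨K1, hK1⟩ : ∃ K1 : IntermediateField
    (IntermediateField.adjoin (algebraicClosure k Ω) {x}) Ω, K1 =
      IntermediateField.adjoin (IntermediateField.adjoin (algebraicClosure k Ω) {x}) {w₁, w₂} :=
    ⟨_, rfl⟩
  rw [← hK1]
  have hmem : ∀ t : Ω, t ∈ K1 ↔ t ∈ geomF k F₁ Ω := by
    intro t
    have hκF : ∀ c : algebraicClosure k Ω, (c : Ω) ∈ geomF k F₁ Ω := fun c =>
      IntermediateField.subset_adjoin F₁ _ c.2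
    have hkF : ∀ c : k, algebraMap k Ω c ∈ geomF k F₁ Ω := fun c =>
      hκF (algebraMap k (algebraicClosure k Ω) c)
    have huG : u ∈ geomF k F₁ Ω := (geomF k F₁ Ω).algebraMap_mem ⟨u, huF⟩
    have hvG : v ∈ geomF k F₁ Ω := (geomF k F₁ Ω).algebraMap_mem ⟨v, hvF⟩
    have h2G : (2 : Ω) ∈ geomF k F₁ Ω := by
      have := hkF 2
      rwa [map_ofNat] at this
    have hAG : A ∈ geomF k F₁ Ω := by rw [hA]; exact hkF a
    have hBG : B ∈ geomF k F₁ Ω := by rw [hB]; exact hkF b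
    have h1G : 1 - A * u ^ 2 ∈ geomF k F₁ Ω :=
      sub_mem (one_mem _) (mul_mem hAG (pow_mem huG 2))
    constructor
    · intro ht
      rw [hK1] at ht
      refine adjoin_le_sub (T := (geomF k F₁ Ω).toSubfield) (fun r => ?_) (fun w hw => ?_) t ht
      · have h1 : (r : Ω) ∈ IntermediateField.adjoin (algebraicClosure k Ω) {x} := r.2
        refine adjoin_le_sub (T := (geomF k F₁ Ω).toSubfield) (fun c => hκF c) (fun w hw => ?_) _ h1
        rw [Set.mem_singleton_iff] at hw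
        rw [hw, hx]
        exact div_mem (S := Subfield Ω) (mul_mem hBG (pow_mem hvG 2)) h1G
      · rcases hw with hw | hw
        · rw [hw, hw₁]
          exact div_mem (S := Subfield Ω) (mul_mem huG hvG) h1G
        · rw [Set.mem_singleton_iff] at hw
          rw [hw, hw₂]
          exact div_mem (S := Subfield Ω) (mul_mem h2G huG) h1G
    · intro ht
      have hR : ∀ w : Ω, w ∈ IntermediateField.adjoin (algebraicClosure k Ω) {x} → w ∈ K1 :=
        fun w hw => K1.algebraMap_mem ⟨w, hw⟩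
      have hκ1 : ∀ c : algebraicClosure k Ω, (c : Ω) ∈ K1 := fun c =>
        hR _ (IntermediateField.algebraMap_mem _ c)
      have hx1 : x ∈ K1 := hR x (IntermediateField.mem_adjoin_simple_self _ _)
      have hw11 : w₁ ∈ K1 := by rw [hK1]; exact IntermediateField.subset_adjoin _ _ (by simp)
      have hw21 : w₂ ∈ K1 := by rw [hK1]; exact IntermediateField.subset_adjoin _ _ (by simp)
      have h21 : (2 : Ω) ∈ K1 := by
        have := hκ1 (algebraMap k (algebraicClosure k Ω) 2)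
        have h3 : ((algebraMap k (algebraicClosure k Ω) 2 : algebraicClosure k Ω) : Ω) = 2 := by
          change algebraMap k Ω 2 = 2
          rw [map_ofNat]
        rwa [h3] at this
      have hu1 : u ∈ K1 := by
        rw [huw]
        exact div_mem hw21 (add_mem (pow_mem hx1 2) (one_mem _))
      have hv1 : v ∈ K1 := by
        rw [hvw]
        exact div_mem (mul_mem h21 hw11) hw21
      refine adjoin_le_sub (T := K1.toSubfield) (fun r => ?_) (fun w hw => hκ1 ⟨w, hw⟩) t ht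
      have h1 : (r : Ω) ∈ IntermediateField.adjoin k {u, v} := by rw [← hF₁]; exact r.2
      refine adjoin_le_sub (T := K1.toSubfield) (fun c => ?_) (fun w hw => ?_) _ h1
      · exact hκ1 (algebraMap k (algebraicClosure k Ω) c)
      · rcases hw with hw | hw
        · rw [hw]; exact hu1
        · rw [Set.mem_singleton_iff] at hw
          rw [hw]; exact hv1
  let e : K1 ≃+* geomF k F₁ Ω :=
    { toFun := fun w => ⟨w.1, (hmem _).1 w.2⟩
      invFun := fun w => ⟨w.1, (hmem _).2 w.2⟩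
      left_inv := fun w => rfl
      right_inv := fun w => rfl
      map_mul' := fun w w' => rfl
      map_add' := fun w w' => rfl }
  refine (maxPro_congr (ℓ := 2) e (fun a => rfl) (fun W => ⟨fun h c => ?_, fun h c => ?_⟩) z).symm
  · exact Pool.Agent.W620.SC.const_mem h c.2
  · exact h (algebraMap k (algebraicClosure k Ω) c)

end geo

end Pool.Agent.K3h82.FQ4
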