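import Pool.Agent.Y158.FQ.Wt

/-!
# Semilinear automorphisms whose `ℓ`-th power is trivial on the residue field
-/

set_option autoImplicit false
set_option linter.all false

open Polynomial FF

namespace Pool.Agent.K3h82.FQ4

open Pool.Agent.Y157.PS Pool.Agent.Y748.PS Pool.Agent.Y158.FQ

section lift

variable {ℓ : ℕ} [hℓ : Fact ℓ.Prime] {κ R M : Type} [Field κ] [IsAlgClosed κ] [CharZero κ]
  [Field R] [Field M] [Algebra κ R] [Algebra R M] [Algebra κ M] [IsScalarTower κ R M] {x : R}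
  {B : Finset κ} {Y : M}

/-- **the lifting argument**: a semilinear automorphism over `x` which is trivial on the residue
field of `V` and whose `ℓ`-th power is trivial on the residue field of `O` agrees there with a
linear automorphism `γ`, `γ ^ ℓ = 1` -/
theorem lift1 (hC : Cov ℓ κ R M x B Y) {V : ValuationSubring κ}
    (hl : IsU V (ℓ : κ)) {O : ValuationSubring M} (hO : Gauss V (algebraMap R M x) O)
    (hu : ∀ O' : ValuationSubring M, Gauss V (algebraMap R M x) O' → O' = O)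
    (φ : RingAut M) (φ₀ : κ ≃+* κ) (hφ : ∀ c, φ (algebraMap κ M c) = algebraMap κ M (φ₀ c))
    (hV : ∀ c, φ₀ c ∈ V ↔ c ∈ V) (hI : ∀ c ∈ V, φ₀ c - c ∈ V.nonunits)
    (hx : φ (algebraMap R M x) = algebraMap R M x)
    (hφℓ : ∀ z ∈ O, (φ ^ ℓ) z - z ∈ O.nonunits) :
    ∃ γ : M ≃ₐ[R] M, γ ^ ℓ = 1 ∧ ∀ z ∈ O, γ z - φ z ∈ O.nonunits := by
  haveI := hC.gal
  have hsφ : ∀ z, φ z ∈ O ↔ z ∈ O := stab hO hu φ φ₀ hφ hx hV
  obtain ⟨γ, hγ⟩ := a_g3 ℓ κ R M x B Y hC V O hO hu (IsLocalRing.ResidueField O)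
    (IsLocalRing.residue O) (res_residue O)
    (IsLocalRing.ResidueField.mapEquiv (resEquiv O φ hsφ))
    (fun c hc => by
      show IsLocalRing.residue O (resEquiv O φ hsφ ⟨_, hc⟩) = _
      rw [← sub_eq_zero, ← map_sub, (res_residue O).ker]
      show φ (algebraMap κ M c) - algebraMap κ M c ∈ O.nonunits
      rw [hφ, ← map_sub]
      have h1 : c ∈ V := (hO.1 c).1 hc
      have h2 := hI c h1
      rw [ValuationSubring.mem_nonunits_iff_or] at h2 ⊢
      rcases h2 with h2 | h2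
      · left; rw [h2, map_zero]
      · right
        rw [← map_inv₀, hO.1]
        exact h2)
    (fun hx' => by
      show IsLocalRing.residue O (resEquiv O φ hsφ ⟨_, hx'⟩) = _
      congr 1
      ext
      exact hx)
  have hγs : ∀ z, γ z ∈ O ↔ z ∈ O := fun z => stabG hO hu γ z
  have hγφ : ∀ z ∈ O, γ z - φ z ∈ O.nonunits := by
    intro z hz
    have hγz : γ z ∈ O := (hγs z).2 hz
    have h1 := hγ z hz hγz
    have h2 : IsLocalRing.residue O ⟨γ z, hγz⟩ =
        IsLocalRing.residue O (resEquiv O φ hsφ ⟨z, hz⟩) := h1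
    rw [← sub_eq_zero, ← map_sub, (res_residue O).ker] at h2
    exact h2
  refine ⟨γ, ?_, hγφ⟩
  have hpw : ∀ (n : ℕ), ∀ z ∈ O, (γ ^ n) z - (φ ^ n) z ∈ O.nonunits := by
    intro n
    induction n with
    | zero =>
      intro z hz
      have : (γ ^ 0) z - (φ ^ 0 : RingAut M) z = 0 := by
        rw [pow_zero, pow_zero]; exact sub_self z
      rw [this]
      exact zero_mem _
    | succ n ih =>
      intro z hz
      have e1 : (γ ^ (n + 1)) z = (γ ^ n) (γ z) := by rw [pow_succ]; rfl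
      have e2 : (φ ^ (n + 1)) z = (φ ^ n) (φ z) := by rw [pow_succ]; rfl
      have h1 := ih (γ z) ((hγs z).2 hz)
      have hφn : ∀ (n : ℕ) (w : M), (φ ^ n) w ∈ O ↔ w ∈ O := by
        intro n
        induction n with
        | zero => intro w; exact Iff.rfl
        | succ n ih =>
          intro w
          have e3 : (φ ^ (n + 1)) w = (φ ^ n) (φ w) := by rw [pow_succ]; rfl
          rw [e3, ih, hsφ]
      have h2 := (nu_map (φ ^ n : RingAut M) (hφn n) (γ z - φ z)).2 (hγφ z hz)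
      have h3 := add_mem h1 h2
      rw [map_sub] at h3
      have h4 : (γ ^ n) (γ z) - (φ ^ n) (γ z) + ((φ ^ n) (γ z) - (φ ^ n) (φ z)) =
          (γ ^ (n + 1)) z - (φ ^ (n + 1)) z := by rw [e1, e2]; ring
      rwa [h4] at h3
  have h2 := (a_g2 ℓ κ R M x _ Y hC V O hO).2 hl
  ext z
  obtain ⟨N, hzN, hN⟩ := hC.pow z
  refine h2 N hN (γ ^ ℓ) (fun w hw _ => ?_) z hzN
  have h3 := add_mem (hpw ℓ w hw) (hφℓ w hw)
  rw [sub_add_sub_cancel] at h3
  exact h3

end lift

end Pool.Agent.K3h82.FQ4
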