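import Pool.Agent.K3h82.FQ4.ParF
import Pool.Agent.K3h82.FQ4.Ext4
import Pool.Agent.K3h82.FQ4.Ar4
import Pool.Agent.K3h82.BT.Fin2

/-!
# Sections over `ℚ` for the curves `a ^ 2 X ^ 4 + b ^ 2 Y ^ 4 = 1`
-/

set_option autoImplicit false
set_option linter.all false

open Polynomial FF Pool.Agent.Y157.PS Pool.Agent.TH954 IsDedekindDomain NumberField

namespace Pool.Agent.K3h82.FQ4

open Pool.Agent.K3h82.BT

section

/-- the values of `x` and of `X Y` at a place -/
theorem val4 {k N C : Type} [Field k] [Field N] [Field C] [Algebra k N] [Algebra k C] [CharZero C]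
    {p : Plc k N C} {a b : k} (ha : a ≠ 0) (hb : b ≠ 0) {X Y x : N}
    (h1 : 1 - algebraMap k N a * X ^ 2 ≠ 0)
    (hx : (2 * algebraMap k N a * algebraMap k N b) * (X * Y / (1 - algebraMap k N a * X ^ 2)) ^ 2 =
      x ^ 3 - x)
    (hx' : x ^ 2 + 1 = 2 / (1 - algebraMap k N a * X ^ 2))
    (h : p.val x 0 ∨ p.val x 1 ∨ p.val x (-1) ∨ p.val x⁻¹ 0) :
    p.val X 0 ∨ p.val Y 0 := by
  haveI : CharZero N := by
    refine charZero_of_inj_zero fun n hn => ?_
    have h2 := Plc.val_natCast (pl := p) n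
    rw [hn] at h2
    have h3 := h2.unique Plc.val_zero
    exact_mod_cast h3
  have haN : algebraMap k N a ≠ 0 := (_root_.map_ne_zero _).2 ha
  have hbN : algebraMap k N b ≠ 0 := (_root_.map_ne_zero _).2 hb
  have haC : algebraMap k C a ≠ 0 := (_root_.map_ne_zero _).2 ha
  have hbC : algebraMap k C b ≠ 0 := (_root_.map_ne_zero _).2 hb
  have hx21 : x ^ 2 + 1 ≠ 0 := by
    rw [hx']
    exact div_ne_zero two_ne_zero h1
  have hE : 1 - algebraMap k N a * X ^ 2 = 2 / (x ^ 2 + 1) := by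
    rw [hx', div_div_cancel₀ two_ne_zero]
  have hXY : (X * Y) ^ 2 = (x ^ 3 - x) * (2 / (algebraMap k N a * algebraMap k N b)) *
      ((x ^ 2 + 1)⁻¹) ^ 2 := by
    rw [← hx, hE]
    field_simp
  have h2 : p.val ((X * Y) ^ 2) 0 := by
    have hab : p.val (2 / (algebraMap k N a * algebraMap k N b))
        (2 / (algebraMap k C a * algebraMap k C b)) := by
      rw [div_eq_mul_inv, div_eq_mul_inv]
      have h3 := Plc.val_natCast (pl := p) 2
      push_cast at h3
      exact h3.mul (((Plc.val_alg a).mul (Plc.val_alg b)).inv (mul_ne_zero haC hbC))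
    rcases h with h | h | h | h
    · have h3 := (((h.pow 3).sub h).mul hab).mul ((((h.pow 2).add Plc.val_one).inv
        (by norm_num)).pow 2)
      rw [← hXY] at h3
      have e : ((0 : C) ^ 3 - 0) * (2 / (algebraMap k C a * algebraMap k C b)) *
        ((0 ^ 2 + 1)⁻¹) ^ 2 = 0 := by ring
      rwa [e] at h3
    · have h3 := (((h.pow 3).sub h).mul hab).mul ((((h.pow 2).add Plc.val_one).inv
        (by norm_num)).pow 2)
      rw [← hXY] at h3
      have e : ((1 : C) ^ 3 - 1) * (2 / (algebraMap k C a * algebraMap k C b)) *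
        ((1 ^ 2 + 1)⁻¹) ^ 2 = 0 := by ring
      rwa [e] at h3
    · have h3 := (((h.pow 3).sub h).mul hab).mul ((((h.pow 2).add Plc.val_one).inv
        (by norm_num)).pow 2)
      rw [← hXY] at h3
      have e : ((-1 : C) ^ 3 - -1) * (2 / (algebraMap k C a * algebraMap k C b)) *
        (((-1) ^ 2 + 1)⁻¹) ^ 2 = 0 := by ring
      rwa [e] at h3
    · by_cases hx0 : x = 0
      · rw [hXY, hx0]
        have e : ((0 : N) ^ 3 - 0) * (2 / (algebraMap k N a * algebraMap k N b)) *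
          ((0 ^ 2 + 1)⁻¹) ^ 2 = 0 := by ring
        rw [e]
        exact Plc.val_zero
      · have hXY' : (X * Y) ^ 2 = (x⁻¹ - (x⁻¹) ^ 3) *
            (2 / (algebraMap k N a * algebraMap k N b)) * ((1 + (x⁻¹) ^ 2)⁻¹) ^ 2 := by
          rw [hXY]
          have h4 : 1 + (x⁻¹) ^ 2 = (x ^ 2 + 1) * (x⁻¹) ^ 2 := by
            rw [inv_pow, add_mul, mul_inv_cancel₀ (pow_ne_zero 2 hx0), one_mul]
          rw [h4]
          field_simp
        have h3 := ((h.sub (h.pow 3)).mul hab).mul (((Plc.val_one.add (h.pow 2)).inv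
          (by norm_num)).pow 2)
        rw [← hXY'] at h3
        have e : ((0 : C) - 0 ^ 3) * (2 / (algebraMap k C a * algebraMap k C b)) *
          ((1 + 0 ^ 2)⁻¹) ^ 2 = 0 := by ring
        rwa [e] at h3
  have h3 : p.val (X * Y) 0 := by
    have h4 : X * Y ∈ p.W := Plc.mem_of_pow_mem two_pos h2.mem
    obtain ⟨c, hc⟩ := Plc.val_of_mem h4
    have h5 := (hc.pow 2).unique h2
    rw [pow_eq_zero_iff two_ne_zero] at h5
    rwa [h5] at hc
  by_cases hX : X ∈ p.W
  · obtain ⟨c, hc⟩ := Plc.val_of_mem hX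
    by_cases hc0 : c = 0
    · left
      rwa [hc0] at hc
    · right
      have h4 := (hc.inv hc0).mul h3
      rw [mul_zero] at h4
      by_cases hX0 : X = 0
      · exfalso
        rw [hX0] at hc
        exact hc0 (hc.unique Plc.val_zero)
      · rwa [inv_mul_cancel_left₀ hX0] at h4
  · right
    have h4 := (Plc.val_inv_of_notMem hX).mul h3
    rw [mul_zero] at h4
    have hX0 : X ≠ 0 := by
      rintro rfl
      exact hX (zero_mem _)
    rwa [inv_mul_cancel_left₀ hX0] at h4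

end

section

attribute [-instance] DivisionRing.toRatAlgebra
attribute [local instance 1] DivisionRing.toRatAlgebra

variable {F Ω B : Type} [Field F] [Field Ω] [Field B] [Algebra ℚ F] [Algebra F Ω]
  [Algebra ℚ Ω] [Algebra ℚ B] [IsScalarTower ℚ F Ω] [IsAlgClosed Ω] [Algebra.IsAlgebraic F Ω]
  [IsAlgClosure ℚ B]
  {C : Type} [Field C] [Algebra ℚ_[2] C] [Algebra ℚ C] [IsAlgClosure ℚ_[2] C]

/-- the theorem, for `X`, `Y` in `F` -/
theorem fq4F {p : ℕ} (hp : p.Prime) {a b : ℤ} (ha : a ∣ 2 * p) (hb : b ∣ 2 * p) (X Y : F)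
    (hX : Transcendental ℚ X)
    (hF : Algebra.IsAlgebraic (IntermediateField.adjoin ℚ {algebraMap F Ω X}) Ω)
    (hXY : (a : F) ^ 2 * X ^ 4 + (b : F) ^ 2 * Y ^ 4 = 1)
    (N : IntermediateField F Ω) (s : GalSection ℚ F N B)
    (hN : ∀ z ∈ geomPro 2 ℚ (IntermediateField.adjoin ℚ {algebraMap F Ω X, algebraMap F Ω Y}) Ω,
      z ∈ N)
    (pl : Plc ℚ N C) (hpv : s.GivenBy ℚ_[2] pl) :
    (pl.val (algebraMap F N X) 0 ∨ pl.val (algebraMap F N Y) 0) ∧
      (p % 8 = 3 ∨ p % 8 = 5 → ∀ (g : B ≃ₐ[ℚ] B) (z : N),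
        (z : Ω) ∈ geomPro 2 ℚ (IntermediateField.adjoin ℚ
          {algebraMap F Ω X, algebraMap F Ω Y}) Ω → (s.s g z ∈ pl.W ↔ z ∈ pl.W)) := by
  haveI : Fact p.Prime := ⟨hp⟩
  haveI : Algebra.IsAlgebraic ℚ B := IsAlgClosure.isAlgebraic
  haveI : CharZero F := charZero_of_injective_algebraMap (algebraMap ℚ F).injective
  haveI : CharZero Ω := charZero_of_injective_algebraMap (algebraMap ℚ Ω).injective
  haveI : CharZero C := charZero_of_injective_algebraMap (algebraMap ℚ_[2] C).injective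
  have hd0 : ∀ {d : ℤ}, d ∣ 2 * p → d ≠ 0 := by
    rintro d hd rfl
    have h1 := zero_dvd_iff.1 hd
    have : (p : ℤ) ≠ 0 := by exact_mod_cast hp.ne_zero
    omega
  have haQ : (a : ℚ) ≠ 0 := by exact_mod_cast hd0 ha
  have hbQ : (b : ℚ) ≠ 0 := by exact_mod_cast hd0 hb
  have haF : (a : F) ≠ 0 := by exact_mod_cast hd0 ha
  have hbF : (b : F) ≠ 0 := by exact_mod_cast hd0 hb
  have hX0 : X ≠ 0 := by
    rintro rfl
    exact hX isAlgebraic_zero
  have h1 : 1 - (a : F) * X ^ 2 ≠ 0 := by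
    intro h0
    apply hX
    have h2 : IsAlgebraic ℚ (X ^ 2) := by
      have h3 : X ^ 2 = algebraMap ℚ F (a : ℚ)⁻¹ := by
        rw [map_inv₀, map_intCast]
        refine eq_inv_of_mul_eq_one_left ?_
        linear_combination -h0
      rw [h3]
      exact isAlgebraic_algebraMap _
    exact h2.of_pow two_pos
  obtain ⟨e1, e2, e3⟩ := alg4 haF hbF hX0 h1 hXY
  obtain ⟨x, hx⟩ : ∃ x, x = (b : F) * Y ^ 2 / (1 - (a : F) * X ^ 2) := ⟨_, rfl⟩
  rw [← hx] at e1 e2 e3
  have hx21 : x ^ 2 + 1 ≠ 0 := by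
    rw [e3]
    exact div_ne_zero two_ne_zero h1
  have hX2 : X ^ 2 = (1 - 2 / (x ^ 2 + 1)) / (a : F) := by
    rw [e3, div_div_cancel₀ two_ne_zero]
    field_simp
    ring
  have hxt : Transcendental ℚ x := by
    intro h
    apply hX
    have h2 : IsAlgebraic ℚ (X ^ 2) := by
      rw [hX2]
      have h3 : IsAlgebraic ℚ (1 : F) := isAlgebraic_one
      have h4 : IsAlgebraic ℚ (2 : F) := by
        have := isAlgebraic_algebraMap (A := F) (2 : ℚ)
        rwa [map_ofNat] at this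
      have h5 : IsAlgebraic ℚ (a : F) := by
        have := isAlgebraic_algebraMap (A := F) (a : ℚ)
        rwa [map_intCast] at this
      rw [div_eq_mul_inv, div_eq_mul_inv]
      exact (h3.sub (h4.mul (((h.pow 2).add h3).inv))).mul h5.inv
    exact h2.of_pow two_pos
  have hxΩ : Transcendental ℚ (algebraMap F Ω x) :=
    (transcendental_algebraMap_iff (R := ℚ) (algebraMap F Ω).injective (a := x)).2 hxt
  have hXΩ : Transcendental ℚ (algebraMap F Ω X) :=
    (transcendental_algebraMap_iff (R := ℚ) (algebraMap F Ω).injective (a := X)).2 hX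
  have hX2Ω : algebraMap F Ω X ^ 2 ∈ IntermediateField.adjoin ℚ {algebraMap F Ω x} := by
    rw [← map_pow, hX2, map_div₀, map_sub, map_div₀, map_add, map_pow, map_one, map_ofNat,
      map_intCast]
    have hxm : algebraMap F Ω x ∈ IntermediateField.adjoin ℚ {algebraMap F Ω x} :=
      IntermediateField.mem_adjoin_simple_self ℚ _
    have h2m : (2 : Ω) ∈ IntermediateField.adjoin ℚ {algebraMap F Ω x} := by
      have := IntermediateField.algebraMap_mem (IntermediateField.adjoin ℚ {algebraMap F Ω x}) 2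
      rwa [map_ofNat] at this
    have ham : (a : Ω) ∈ IntermediateField.adjoin ℚ {algebraMap F Ω x} := by
      have := IntermediateField.algebraMap_mem (IntermediateField.adjoin ℚ {algebraMap F Ω x})
        (a : ℚ)
      rwa [map_intCast] at this
    exact div_mem (sub_mem (one_mem _) (div_mem h2m (add_mem (pow_mem hxm 2) (one_mem _)))) ham
  have hΩx : Algebra.IsAlgebraic (IntermediateField.adjoin ℚ {algebraMap F Ω x}) Ω :=
    alg_chg hF two_pos hX2Ω
  have hFx : Algebra.IsAlgebraic (IntermediateField.adjoin ℚ {x}) F := alg_down hΩx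
  have halg := halg_acl (K := ℚ) (Ω := Ω) hFx
  -- the covering fields
  have hgeo : ∀ (d : ℚ) (y : Ω), d ≠ 0 →
      algebraMap ℚ Ω d * y ^ 2 = algebraMap F Ω x ^ 5 - algebraMap F Ω x → ∀ z,
      z ∈ geomPro 2 ℚ (IntermediateField.adjoin ℚ {algebraMap F Ω X, algebraMap F Ω Y}) Ω ↔
      z ∈ geomPro 2 ℚ (IntermediateField.adjoin ℚ {algebraMap F Ω x, y}) Ω := by
    intro d y hd hy z
    refine geo4 haQ hbQ hd hXΩ halg ?_ ?_ hxΩ hy z
    · rw [map_intCast, map_intCast, ← map_intCast (algebraMap F Ω) a,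
        ← map_intCast (algebraMap F Ω) b, ← map_pow, ← map_pow, ← map_pow, ← map_pow, ← map_mul,
        ← map_mul, ← map_add, hXY, map_one]
    · rw [hx, map_intCast, map_intCast, map_div₀, map_mul, map_sub, map_mul, map_pow, map_pow,
        map_one, map_intCast, map_intCast]
  -- a square root of `x ^ 5 - x`
  obtain ⟨y₀, hy₀⟩ := IsAlgClosed.exists_pow_nat_eq (algebraMap F Ω x ^ 5 - algebraMap F Ω x)
    two_pos
  have hy₀N : y₀ ∈ N := by
    refine hN _ ((hgeo 1 y₀ one_ne_zero (by rw [map_one, one_mul, hy₀]) y₀).2 ?_)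
    exact (gp_iff (k := ℚ) (F := Ω) (Ω := Ω) (x := algebraMap F Ω x) (y := y₀)).2 MP.self
  have hf5 : x ^ 5 - x ≠ 0 := by
    intro h0
    exact hxt ⟨Polynomial.X ^ 5 - Polynomial.X, by
      intro h
      have := congrArg (fun q : ℚ[X] => q.coeff 5) h
      simp [coeff_X] at this, by simpa using h0⟩
  obtain ⟨d, y, hd, hys, hxy⟩ := exists_twist s (z := ⟨y₀, hy₀N⟩) hf5 (by
    apply Subtype.ext
    change y₀ ^ 2 = algebraMap F Ω (x ^ 5 - x)
    rw [hy₀, map_sub, map_pow])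
  have hyΩ : ∀ (d : ℚ) (y : N), algebraMap ℚ N d * y ^ 2 = algebraMap F N (x ^ 5 - x) →
      algebraMap ℚ Ω d * (y : Ω) ^ 2 = algebraMap F Ω x ^ 5 - algebraMap F Ω x := by
    intro d y h
    have h1 := congrArg (algebraMap N Ω) h
    rw [map_mul, map_pow] at h1
    have h2 : algebraMap N Ω (algebraMap F N (x ^ 5 - x)) =
      algebraMap F Ω x ^ 5 - algebraMap F Ω x := by
      change algebraMap F Ω (x ^ 5 - x) = _
      rw [map_sub, map_pow]
    rw [h2] at h1
    exact h1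
  -- the parity of `d`
  have hpar : ∀ q : ℕ, q.Prime → q ≠ 2 → q ≠ p → Even (padicValRat q d) := by
    intro q hq hq2 hqp
    haveI : Fact q.Prime := ⟨hq⟩
    obtain ⟨v, hv⟩ := exists_v q
    have h2v : (2 : 𝓞 ℚ) ∉ v.asIdeal := by
      have := notMem_v (r := 2) Nat.prime_two (Ne.symm hq2) hv
      exact_mod_cast this
    have hpv' : (p : 𝓞 ℚ) ∉ v.asIdeal := notMem_v hp (Ne.symm hqp) hv
    have hval : ∀ {c : ℤ}, c ∣ 2 * p → v.valuation ℚ (c : ℚ) = 1 := fun hc => val_dvd h2v hpv' hc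
    obtain ⟨F', i1, i2, i3, i4, i5, N', e, s', p', he, hS, hpv₁, -, -, -, hNN', hFF'⟩ :=
      exists_ext s pl hpv {y} (fun z hz g => by
        rw [Set.mem_singleton_iff] at hz
        rw [hz]
        exact hys g)
    obtain ⟨y', hy'⟩ := hS y rfl
    obtain ⟨x', hx'⟩ := hFF' x
    obtain ⟨w₁', hw₁'⟩ := hFF' (X * Y / (1 - (a : F) * X ^ 2))
    obtain ⟨w₂', hw₂'⟩ := hFF' (2 * X / (1 - (a : F) * X ^ 2))
    have hinj : Function.Injective (algebraMap F' Ω) := (algebraMap F' Ω).injective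
    refine even_padic hv hd ?_
    refine parF (Ω := Ω) (D₁ := (2 * a * b : ℚ)) (D₂ := (a : ℚ)) x' y' w₁' w₂' ?_ ?_ hd
      (mul_ne_zero (mul_ne_zero two_ne_zero haQ) hbQ) haQ h2v ⟨1, ?_⟩ ⟨1, ?_⟩ ?_ ?_ ?_ N' ?_ s' p'
      hpv₁
    · intro h
      apply hxΩ
      rw [← hx']
      exact h.algebraMap
    · exact alg_down (Ω := Ω) (by rw [hx']; exact hΩx)
    · have h3 := hval (c := 2) ⟨p, by ring⟩
      push_cast at h3
      rw [map_mul, map_mul, h3, hval ha, hval hb]
      norm_num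
    · rw [hval ha]
      norm_num
    · apply hinj
      rw [map_mul, map_pow, map_sub, map_pow, ← IsScalarTower.algebraMap_apply, hy', hx']
      exact hyΩ d y hxy
    · apply hinj
      rw [map_mul, map_pow, map_sub, map_pow, ← IsScalarTower.algebraMap_apply, hw₁', hx',
        ← map_pow, ← map_pow, ← map_sub, ← e1, map_mul (algebraMap F Ω), map_mul (algebraMap F Ω),
        map_mul (algebraMap F Ω), map_mul (algebraMap ℚ Ω), map_mul (algebraMap ℚ Ω), map_ofNat,
        map_ofNat, map_intCast, map_intCast, map_intCast, map_intCast]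
    · apply hinj
      rw [map_mul, map_pow, map_sub, map_pow, ← IsScalarTower.algebraMap_apply, hw₂', hx',
        map_one, ← map_pow, ← map_pow, ← map_one (algebraMap F Ω), ← map_sub, ← e2,
        map_mul (algebraMap F Ω), map_intCast, map_intCast]
    · intro z hz
      have h3 := (Pool.Agent.Y158.FQ.geomPro_base (k := ℚ) (K := ℚ) (X := x') (Y := y')
        (u := algebraMap F Ω x) (w := (y : Ω)) (c := 1) (c' := 1)
        (one_mem _) (one_mem _) one_ne_zero one_ne_zero (by rw [one_mul, hx'])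
        (by rw [one_mul, hy']) z).1 hz
      exact (hNN' z).2 (hN z ((hgeo d y hd (hyΩ d y hxy) z).2 h3))
  -- the integer `d₀`
  obtain ⟨d₀, r, hr, hd₀, hdr⟩ := sqfree_part hp hd hpar
  obtain ⟨y₁, hy₁⟩ : ∃ y₁ : N, y₁ = algebraMap ℚ N r * y := ⟨_, rfl⟩
  have hxy₁' : algebraMap ℚ N (d₀ : ℚ) * y₁ ^ 2 = algebraMap F N (x ^ 5 - x) := by
    rw [← hxy, hdr, hy₁, map_mul, map_pow]
    ring
  have hxy₁ : (d₀ : N) * y₁ ^ 2 = algebraMap F N (x ^ 5 - x) := by
    rw [← hxy₁', map_intCast]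
  have hys₁ : ∀ g : B ≃ₐ[ℚ] B, s.s g y₁ = y₁ := by
    intro g
    have h3 : s.s g (algebraMap ℚ N r) = algebraMap ℚ N r := by
      rw [← s.j.commutes, s.sec, g.commutes]
    rw [hy₁, map_mul, hys, h3]
  have hd₀Q : (d₀ : ℚ) ≠ 0 := by exact_mod_cast hd0 hd₀
  have hgeo₁ := hgeo d₀ y₁ hd₀Q (hyΩ d₀ y₁ hxy₁')
  obtain ⟨h3, h4⟩ := btQ hp hd₀ x hxt hFx N s y₁ hxy₁ hys₁
    (fun z hz => hN z ((hgeo₁ z).2 hz)) pl hpv
  refine ⟨?_, fun hp8 g z hz => h4 hp8 g z ((hgeo₁ z).1 hz)⟩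
  refine val4 (a := (a : ℚ)) (b := (b : ℚ)) haQ hbQ (x := algebraMap F N x) ?_ ?_ ?_ h3
  · rw [map_intCast, ← map_intCast (algebraMap F N) a, ← map_pow, ← map_mul,
      ← map_one (algebraMap F N), ← map_sub]
    exact (_root_.map_ne_zero _).2 h1
  · rw [map_intCast, map_intCast, ← map_intCast (algebraMap F N) a,
      ← map_intCast (algebraMap F N) b, ← map_ofNat (algebraMap F N) 2,
      ← map_one (algebraMap F N), ← map_pow, ← map_mul, ← map_mul, ← map_mul, ← map_mul, ← map_sub,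
      ← map_div₀, ← map_pow, ← map_mul, ← map_pow, ← map_sub]
    congr 1
  · rw [map_intCast, ← map_intCast (algebraMap F N) a, ← map_ofNat (algebraMap F N) 2,
      ← map_one (algebraMap F N), ← map_pow, ← map_pow, ← map_mul, ← map_add, ← map_sub,
      ← map_div₀, e3]

end

end Pool.Agent.K3h82.FQ4
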