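import Pool.Agent.K3h82.FQ4.Main4

/-!
# Sections over `ℚ` for the curves `a ^ 2 X ^ 4 + b ^ 2 Y ^ 4 = 1`: the theorem
-/

set_option autoImplicit false
set_option linter.all false

open Polynomial FF Pool.Agent.Y157.PS Pool.Agent.TH954 IsDedekindDomain NumberField

namespace Pool.Agent.K3h82.FQ4

open Pool.Agent.K3h82.BT
open Pool.Agent.Y158.GR (fixL fixL_val F_fixL)

section arith

/-- divisors of `2 p` which are squares in `ℚ_2` -/
theorem sq_int {p : ℕ} (hp : p.Prime) (hp8 : p % 8 = 3 ∨ p % 8 = 5) {m : ℤ} (hm : m ∣ 2 * p)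
    {z : ℚ_[2]} (h : z ^ 2 = m) : m = 1 := by
  have h1 := sq8 h
  have h2 : m.natAbs ∣ 2 * p := by
    have := Int.natAbs_dvd_natAbs.2 hm
    rwa [Int.natAbs_mul, Int.natAbs_natCast] at this
  obtain ⟨k₁, k₂, hk₁, hk₂, hk⟩ := (Nat.dvd_mul).1 h2
  have h3 : k₁ = 1 ∨ k₁ = 2 := (Nat.dvd_prime Nat.prime_two).1 hk₁
  have h4 : k₂ = 1 ∨ k₂ = p := (Nat.dvd_prime hp).1 hk₂
  have h5 : m = (m.natAbs : ℤ) ∨ m = -(m.natAbs : ℤ) := Int.natAbs_eq m
  rw [← hk] at h5
  have hp8' : (p : ℤ) % 8 = 3 ∨ (p : ℤ) % 8 = 5 := by omega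
  rcases h3 with rfl | rfl <;> rcases h4 with rfl | rfl <;> rcases h5 with h5 | h5 <;>
    push_cast at h5 <;> omega

theorem val_pt {C : Type} [Field C] [Algebra ℚ_[2] C] {p : ℕ} (hp : p.Prime)
    (hp8 : p % 8 = 3 ∨ p % 8 = 5) {b : ℤ} (hb : b ∣ 2 * p) {c : C}
    (hc : ∃ r : ℚ_[2], algebraMap ℚ_[2] C r = c) (h : (b : C) ^ 2 * c ^ 4 = 1) :
    b ^ 2 = 1 ∧ (c = 1 ∨ c = -1) := by
  obtain ⟨r, rfl⟩ := hc
  have h1 : (b : ℚ_[2]) ^ 2 * r ^ 4 = 1 := by
    apply (algebraMap ℚ_[2] C).injective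
    rw [map_mul, map_pow, map_pow, map_intCast, h, map_one]
  have hr0 : r ≠ 0 := by
    rintro rfl
    rw [zero_pow (by norm_num), mul_zero] at h1
    exact zero_ne_one h1
  have h2 : ((b : ℚ_[2]) * r ^ 2 - 1) * ((b : ℚ_[2]) * r ^ 2 + 1) = 0 := by
    linear_combination h1
  have key : b = 1 ∨ b = -1 := by
    rcases mul_eq_zero.1 h2 with h3 | h3
    · left
      refine sq_int hp hp8 hb (z := r⁻¹) ?_
      rw [inv_pow]
      refine inv_eq_of_mul_eq_one_left ?_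
      linear_combination h3
    · right
      have h4 : -b = 1 := by
        refine sq_int hp hp8 (by rwa [neg_dvd]) (z := r⁻¹) ?_
        rw [inv_pow]
        refine inv_eq_of_mul_eq_one_left ?_
        push_cast
        linear_combination -h3
      omega
  have hb2 : b ^ 2 = 1 := by
    rcases key with rfl | rfl <;> norm_num
  refine ⟨hb2, ?_⟩
  have h3 : r ^ 4 = 1 := by
    have h4 : (b : ℚ_[2]) ^ 2 = 1 := by exact_mod_cast hb2
    rw [h4, one_mul] at h1
    exact h1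
  have h4 : (r - 1) * ((r + 1) * (r ^ 2 + 1)) = 0 := by linear_combination h3
  rcases mul_eq_zero.1 h4 with h5 | h5
  · left
    rw [sub_eq_zero.1 h5, map_one]
  · rcases mul_eq_zero.1 h5 with h6 | h6
    · right
      rw [eq_neg_of_add_eq_zero_left h6, map_neg, map_one]
    · exact absurd (eq_neg_of_add_eq_zero_left h6) sq_ne

end arith

section

attribute [-instance] DivisionRing.toRatAlgebra
attribute [local instance 1] DivisionRing.toRatAlgebra

variable {F Ω B : Type} [Field F] [Field Ω] [Field B] [Algebra ℚ F] [Algebra F Ω]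
  [Algebra ℚ Ω] [Algebra ℚ B] [IsScalarTower ℚ F Ω] [IsAlgClosed Ω] [Algebra.IsAlgebraic F Ω]
  [IsAlgClosure ℚ B]
  {C : Type} [Field C] [Algebra ℚ_[2] C] [Algebra ℚ C] [IsAlgClosure ℚ_[2] C]

/-- **the theorem** -/
theorem fq4 {p : ℕ} (hp : p.Prime) {a b : ℤ} (ha : a ∣ 2 * p) (hb : b ∣ 2 * p)
    (N : IntermediateField F Ω) (s : GalSection ℚ F N B) (X Y : N) (hXs : ∀ g, s.s g X = X)
    (hYs : ∀ g, s.s g Y = Y) (hX : Transcendental ℚ (X : Ω))
    (hΩ : Algebra.IsAlgebraic (IntermediateField.adjoin ℚ {(X : Ω)}) Ω)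
    (hXY : (a : N) ^ 2 * X ^ 4 + (b : N) ^ 2 * Y ^ 4 = 1)
    (hN : ∀ z ∈ geomPro 2 ℚ (IntermediateField.adjoin ℚ {(X : Ω), (Y : Ω)}) Ω, z ∈ N)
    (pl : Plc ℚ N C) (hpv : s.GivenBy ℚ_[2] pl) :
    (pl.val X 0 ∨ pl.val Y 0) ∧
      (p % 8 = 3 ∨ p % 8 = 5 →
        (∃ u v : ℚ, (a : ℚ) ^ 2 * u ^ 4 + (b : ℚ) ^ 2 * v ^ 4 = 1 ∧ pl.val X (u : C) ∧
          pl.val Y (v : C)) ∧
        ∀ (g : B ≃ₐ[ℚ] B) (z : N),
          (z : Ω) ∈ geomPro 2 ℚ (IntermediateField.adjoin ℚ {(X : Ω), (Y : Ω)}) Ω →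
          (s.s g z ∈ pl.W ↔ z ∈ pl.W)) := by
  haveI : Algebra.IsAlgebraic ℚ B := IsAlgClosure.isAlgebraic
  haveI : CharZero C := charZero_of_injective_algebraMap (algebraMap ℚ_[2] C).injective
  haveI : CharZero N := charZero_of_injective_algebraMap (algebraMap ℚ N).injective
  have hd0 : ∀ {d : ℤ}, d ∣ 2 * p → d ≠ 0 := by
    rintro d hd rfl
    have h1 := zero_dvd_iff.1 hd
    have : (p : ℤ) ≠ 0 := by exact_mod_cast hp.ne_zero
    omega
  obtain ⟨F', i1, i2, i3, i4, i5, N', e, s', p', he, hS, hpv₁, hval, hmem, hs, hNN', -⟩ :=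
    exists_ext s pl hpv {X, Y} (fun z hz g => by
      rcases hz with hz | hz
      · rw [hz]; exact hXs g
      · rw [Set.mem_singleton_iff] at hz
        rw [hz]; exact hYs g)
  obtain ⟨X', hX'⟩ := hS X (by simp)
  obtain ⟨Y', hY'⟩ := hS Y (by simp)
  have hinj : Function.Injective (algebraMap F' Ω) := (algebraMap F' Ω).injective
  have hXe : algebraMap F' N' X' = e X := by
    apply Subtype.ext
    rw [he]
    exact hX'
  have hYe : algebraMap F' N' Y' = e Y := by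
    apply Subtype.ext
    rw [he]
    exact hY'
  obtain ⟨h1, h2⟩ := fq4F hp ha hb X' Y' (by
      intro h
      apply hX
      rw [← hX']
      exact h.algebraMap) (by rw [hX']; exact hΩ) (by
      apply hinj
      rw [map_add, map_mul, map_mul, map_pow, map_pow, map_pow, map_pow, map_intCast, map_intCast,
        hX', hY', map_one]
      have h3 := congrArg (algebraMap N Ω) hXY
      rw [map_add, map_mul, map_mul, map_pow, map_pow, map_pow, map_pow, map_intCast, map_intCast,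
        map_one] at h3
      exact h3) N' s' (fun z hz => (hNN' z).2 (hN z (by rwa [hX', hY'] at hz))) p' hpv₁
  rw [hXe, hYe, hval, hval] at h1
  refine ⟨h1, fun hp8 => ⟨?_, fun g z hz => ?_⟩⟩
  · -- the values are rational
    have hrat : ∀ z : N, (∀ g, s.s g z = z) → ∀ c : C, pl.val z c →
        ∃ r : ℚ_[2], algebraMap ℚ_[2] C r = c := by
      intro z hz c hc
      obtain ⟨r, hr⟩ := fixL_val (Lv := ℚ_[2]) hpv z hz hc.mem
      obtain ⟨hm, h3⟩ := hc
      exact ⟨r, hr.trans h3⟩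
    have key : ∀ (a b : ℤ), a ≠ 0 → b ∣ 2 * p → ∀ X Y : N, (∀ g, s.s g Y = Y) →
        (a : N) ^ 2 * X ^ 4 + (b : N) ^ 2 * Y ^ 4 = 1 → pl.val X 0 →
        b ^ 2 = 1 ∧ (pl.val Y 1 ∨ pl.val Y (-1)) := by
      intro a b ha0 hb X Y hYs hXY hX0
      have hb0 : (b : N) ≠ 0 := by exact_mod_cast hd0 hb
      have h3 : ∀ n : ℤ, pl.val ((n : ℤ) : N) (n : C) := by
        intro n
        have h4 := Plc.val_alg (pl := pl) (n : ℚ)
        rwa [map_intCast, map_intCast] at h4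
      have h4 : pl.val (Y ^ 4) (((b : C) ^ 2)⁻¹ * (1 - (a : C) ^ 2 * 0 ^ 4)) := by
        have h5 : Y ^ 4 = ((b : N) ^ 2)⁻¹ * (1 - (a : N) ^ 2 * X ^ 4) := by
          rw [← hXY]
          field_simp
          ring
        rw [h5]
        have hbC : (b : C) ^ 2 ≠ 0 := pow_ne_zero 2 (by exact_mod_cast hd0 hb)
        exact (((h3 b).pow 2).inv hbC).mul (Plc.val_one.sub (((h3 a).pow 2).mul (hX0.pow 4)))
      have h5 : Y ∈ pl.W := Plc.mem_of_pow_mem (by norm_num : 0 < 4) h4.mem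
      obtain ⟨c, hc⟩ := Plc.val_of_mem h5
      have h6 := (hc.pow 4).unique h4
      have hbC : (b : C) ≠ 0 := by exact_mod_cast hd0 hb
      obtain ⟨h7, h8⟩ := val_pt hp hp8 hb (hrat Y hYs c hc) (by
        rw [h6]
        field_simp
        ring)
      refine ⟨h7, ?_⟩
      rcases h8 with rfl | rfl
      · exact Or.inl hc
      · exact Or.inr hc
    rcases h1 with h1 | h1
    · obtain ⟨h3, h4 | h4⟩ := key a b (hd0 ha) hb X Y hYs hXY h1
      · refine ⟨0, 1, ?_, by simpa using h1, by simpa using h4⟩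
        have h5 : (b : ℚ) ^ 2 = 1 := by exact_mod_cast h3
        rw [h5]; ring
      · refine ⟨0, -1, ?_, by simpa using h1, by simpa using h4⟩
        have h5 : (b : ℚ) ^ 2 = 1 := by exact_mod_cast h3
        rw [h5]; ring
    · obtain ⟨h3, h4 | h4⟩ := key b a (hd0 hb) ha Y X hXs (by rw [add_comm]; exact hXY) h1
      · refine ⟨1, 0, ?_, by simpa using h4, by simpa using h1⟩
        have h5 : (a : ℚ) ^ 2 = 1 := by exact_mod_cast h3
        rw [h5]; ring
      · refine ⟨-1, 0, ?_, by simpa using h4, by simpa using h1⟩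
        have h5 : (a : ℚ) ^ 2 = 1 := by exact_mod_cast h3
        rw [h5]; ring
  · have h3 := h2 hp8 g (e z) (by rw [hX', hY', he]; exact hz)
    rw [hs, hmem, hmem] at h3
    exact h3

end

end Pool.Agent.K3h82.FQ4
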