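import Pool.Agent.K3h82.FQ4.Lift
import Pool.Agent.K3h82.BT.Ine5
import Pool.Agent.Y158.FQ.Frp

/-!
# The parity of the twist of the curve of genus two
-/

set_option autoImplicit false
set_option linter.all false

open Polynomial FF Pool.Agent.Y157.PS IsDedekindDomain NumberField

namespace Pool.Agent.K3h82.FQ4

open Pool.Agent.Y158.GR Pool.Agent.K3h82.BT
open Pool.Agent.Y158.FQ (exists_below wgt_of fix_ord)

section ord

variable {κ M : Type} [Field κ] [Field M] [Algebra κ M]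

theorem ord_sq_add (W : Place κ M) {z : M} (hz : 0 < W.ord z) (h0 : z ^ 2 + 1 ≠ 0) :
    W.ord (z ^ 2 + 1) = 0 := by
  have hz0 : z ≠ 0 := by
    rintro rfl
    rw [W.ord_zero] at hz
    exact lt_irrefl _ hz
  have h1 := W.ord_add (pow_ne_zero 2 hz0) one_ne_zero h0
  have h2 := W.ord_sub h0 (pow_ne_zero 2 hz0) (by rw [add_sub_cancel_left]; exact one_ne_zero)
  rw [add_sub_cancel_left, W.ord_one, W.ord_pow] at h2
  rw [W.ord_one, W.ord_pow] at h1
  push_cast at h1 h2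
  have h3 : (0 : ℤ) ≤ W.ord (z ^ 2 + 1) := by
    refine le_trans ?_ h1
    rw [le_min_iff]
    constructor
    · omega
    · exact le_refl _
  have h4 : W.ord (z ^ 2 + 1) ≤ 0 := by
    rcases min_le_iff.1 h2 with h | h
    · exact h
    · omega
  omega

end ord

variable {K κ : Type} [Field K] [NumberField K] [Field κ] [Algebra K κ] [IsAlgClosure K κ]
  {R M : Type} [Field R] [Field M] [Algebra κ R] [Algebra R M] [Algebra κ M]
  [IsScalarTower κ R M] {x' : R} {y' : M}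

/-- an element of order two of `Gal(M/R)` which fixes square roots of `x ^ 3 - x`, `x ^ 4 - 1`
fixes a square root of `x ^ 5 - x` -/
theorem no_inv {x : R} {B : Finset κ} {Y : M} (hC : Cov 2 κ R M x B Y) {X y w₁ w₂ : M}
    [IsAlgClosed κ] [CharZero κ] (hX : Transcendental κ X)
    {d D₁ D₂ : κ} (hd : d ≠ 0) (hD₁ : D₁ ≠ 0) (hD₂ : D₂ ≠ 0)
    (hy : algebraMap κ M d * y ^ 2 = X ^ 5 - X) (hw₁ : algebraMap κ M D₁ * w₁ ^ 2 = X ^ 3 - X)
    (hw₂ : algebraMap κ M D₂ * w₂ ^ 2 = X ^ 4 - 1) (γ : M ≃ₐ[R] M) (hγ : γ ^ 2 = 1)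
    (hγX : γ X = X) (hγy : γ y = -y) (hγ₁ : γ w₁ = w₁) (hγ₂ : γ w₂ = w₂) : False := by
  haveI h2p : Fact (Nat.Prime 2) := ⟨Nat.prime_two⟩
  haveI : CharZero M := charZero_of_injective_algebraMap (algebraMap κ M).injective
  haveI := hC.gal
  have hne : ∀ q : κ[X], q ≠ 0 → aeval X q ≠ 0 := fun q hq h0 => hX ⟨q, hq, h0⟩
  have hX0 : X ≠ 0 := by
    rintro rfl
    exact hX isAlgebraic_zero
  have hX4 : X ^ 4 - 1 ≠ 0 := by
    have h1 := hne (Polynomial.X ^ 4 - C 1) (X_pow_sub_C_ne_zero (by norm_num) 1)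
    simpa using h1
  have hX21 : X ^ 2 + 1 ≠ 0 := by
    intro h0
    apply hX4
    linear_combination (X ^ 2 - 1) * h0
  have hX20 : X ^ 2 - 1 ≠ 0 := by
    intro h0
    apply hX4
    linear_combination (X ^ 2 + 1) * h0
  have hX5 : X ^ 5 - X ≠ 0 := by
    have : X ^ 5 - X = X * (X ^ 4 - 1) := by ring
    rw [this]
    exact mul_ne_zero hX0 hX4
  have hX3 : X ^ 3 - X ≠ 0 := by
    have : X ^ 3 - X = X * (X ^ 2 - 1) := by ring
    rw [this]
    exact mul_ne_zero hX0 hX20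
  have hy0 : y ≠ 0 := by
    rintro rfl
    rw [zero_pow two_ne_zero, mul_zero] at hy
    exact hX5 hy.symm
  have hw10 : w₁ ≠ 0 := by
    rintro rfl
    rw [zero_pow two_ne_zero, mul_zero] at hw₁
    exact hX3 hw₁.symm
  have hw20 : w₂ ≠ 0 := by
    rintro rfl
    rw [zero_pow two_ne_zero, mul_zero] at hw₂
    exact hX4 hw₂.symm
  have hγ1 : γ ≠ 1 := by
    rintro rfl
    rw [AlgEquiv.one_apply] at hγy
    have h1 : (2 : M) * y = 0 := by linear_combination hγy
    exact (mul_ne_zero two_ne_zero hy0) h1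
  obtain ⟨W, hW⟩ := a_exf 2 κ R M x B Y hC γ hγ hγ1
  have hxt : Transcendental κ (algebraMap R M x) :=
    (transcendental_algebraMap_iff (algebraMap R M).injective).2 hC.rat.trans
  have halg : Algebra.IsAlgebraic (IntermediateField.adjoin κ {algebraMap R M x}) M := by
    -- `M` is algebraic over `R`
    have hR : ∀ r : R, algebraMap R M r ∈ IntermediateField.adjoin κ {algebraMap R M x} := by
      intro r
      have h1 : r ∈ IntermediateField.adjoin κ {x} := by rw [hC.rat.gen]; trivial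
      refine adjoin_le_sub (K := κ) (S := {x})
        (T := (IntermediateField.adjoin κ {algebraMap R M x}).toSubfield.comap (algebraMap R M))
        (fun c => ?_) (fun z hz => ?_) r h1
      · rw [Subfield.mem_comap, ← IsScalarTower.algebraMap_apply]
        exact (IntermediateField.adjoin κ {algebraMap R M x}).algebraMap_mem c
      · rw [Set.mem_singleton_iff] at hz
        rw [hz, Subfield.mem_comap]
        exact IntermediateField.mem_adjoin_simple_self κ _
    let i : R →+* IntermediateField.adjoin κ {algebraMap R M x} :=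
      (algebraMap R M).codRestrict (IntermediateField.adjoin κ {algebraMap R M x}).toSubfield hR
    refine ⟨fun z => ?_⟩
    obtain ⟨q, hq, hqz⟩ := (Algebra.IsAlgebraic.isAlgebraic (R := R) z)
    refine ⟨q.map i, (Polynomial.map_ne_zero_iff i.injective).2 hq, ?_⟩
    rw [aeval_def, eval₂_map]
    exact hqz
  have hγκ : ∀ c : κ, (γ : M ≃+* M) (algebraMap κ M c) = algebraMap κ M c := fun c =>
    Pool.Agent.Y748.PS.gal_const γ c
  have key : ∀ z : M, z ≠ 0 → γ z = -z → W.ord z ≠ 0 := by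
    intro z hz hz'
    refine fix_ord halg W (γ : M ≃+* M) hγκ hW hz (η := -1) (neg_ne_zero.2 one_ne_zero) ?_ ?_
    · intro h
      have h1 : (2 : κ) = 0 := by linear_combination -h
      exact two_ne_zero h1
    · rw [map_neg, map_one, neg_one_mul]
      exact hz'
  have hord : ∀ (z g : M) (c : κ), z ≠ 0 → g ≠ 0 → c ≠ 0 → z ^ 2 = algebraMap κ M c * g →
      W.ord g = 0 → W.ord z = 0 := by
    intro z g c hz hg hc h h0
    have h1 := congrArg W.ord h
    rw [W.ord_pow, W.ord_mul ((_root_.map_ne_zero _).2 hc) hg, W.ord_const hc, h0] at h1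
    push_cast at h1
    omega
  have hdM : algebraMap κ M d ≠ 0 := (_root_.map_ne_zero _).2 hd
  rcases lt_trichotomy (W.ord X) 0 with h | h | h
  · refine key (y / (w₁ * X)) (div_ne_zero hy0 (mul_ne_zero hw10 hX0)) ?_ ?_
    · rw [map_div₀, map_mul, hγy, hγ₁, hγX, neg_div]
    · have hXi : 0 < W.ord X⁻¹ := by
        rw [W.ord_inv]
        omega
      have h3 : (X⁻¹) ^ 2 + 1 ≠ 0 := by
        intro h0
        apply hX21
        field_simp at h0
        linear_combination h0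
      refine hord _ ((X⁻¹) ^ 2 + 1) (D₁ / d) (div_ne_zero hy0 (mul_ne_zero hw10 hX0)) h3
        (div_ne_zero hD₁ hd) ?_ (ord_sq_add W hXi h3)
      rw [map_div₀]
      field_simp
      have h4 : X ^ 2 - 1 ≠ 0 := hX20
      apply mul_left_cancel₀ (mul_ne_zero hX0 h4)
      linear_combination (X * (X ^ 2 - 1)) * hy - (X ^ 5 - X) * hw₁
  · refine key (y / w₂) (div_ne_zero hy0 hw20) ?_ ?_
    · rw [map_div₀, hγy, hγ₂, neg_div]
    · refine hord _ X (D₂ / d) (div_ne_zero hy0 hw20) hX0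
        (div_ne_zero hD₂ hd) ?_ h
      rw [map_div₀]
      field_simp
      apply mul_left_cancel₀ hX4
      linear_combination (X ^ 4 - 1) * hy - (X ^ 5 - X) * hw₂
  · refine key (y / w₁) (div_ne_zero hy0 hw10) ?_ ?_
    · rw [map_div₀, hγy, hγ₁, neg_div]
    · refine hord _ (X ^ 2 + 1) (D₁ / d) (div_ne_zero hy0 hw10) hX21
        (div_ne_zero hD₁ hd) ?_ (ord_sq_add W h hX21)
      rw [map_div₀]
      field_simp
      have h4 : X ^ 2 - 1 ≠ 0 := hX20
      apply mul_left_cancel₀ (mul_ne_zero hX0 h4)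
      linear_combination (X * (X ^ 2 - 1)) * hy - (X ^ 5 - X) * hw₁

/-- a value at `X` of a polynomial over `V` with a unit coefficient is a unit -/
theorem isU_aeval {V : ValuationSubring κ} {t : M} {O : ValuationSubring M} (hO : Gauss V t O)
    (P : V[X]) (n : ℕ) (hn : P.coeff n = 1) : IsU O (aeval t (P.map V.subtype)) := by
  refine hO.2 _ (fun n => ?_) ⟨n, ?_⟩
  · rw [coeff_map]
    exact (P.coeff n).2
  · rw [coeff_map, hn, map_one]
    exact Pool.Agent.Y748.PS.isU_one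

/-- **the parity of the twist of the curve of genus two**, when square roots of `x ^ 3 - x` and
`x ^ 4 - 1` are fixed up to constants which are unramified at `v` -/
theorem par6 (hrat : RatF κ x') {d : K} (hd : d ≠ 0) (hC : AllCov κ R M x' y' (algebraMap K κ d))
    {s : (κ ≃ₐ[K] κ) →* RingAut M} (hs : Sec K κ R M x' y' (1 : κ) s)
    (hy : algebraMap κ M (algebraMap K κ d) * y' ^ 2 = algebraMap R M x' ^ 5 - algebraMap R M x')
    {v : HeightOneSpectrum (𝓞 K)} (h2 : (2 : 𝓞 K) ∉ v.asIdeal)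
    {D₁ D₂ : K} (hD₁ : D₁ ≠ 0) (hD₂ : D₂ ≠ 0)
    (hev₁ : ∃ t : WithZero (Multiplicative ℤ), v.valuation K D₁ = t ^ 2)
    (hev₂ : ∃ t : WithZero (Multiplicative ℤ), v.valuation K D₂ = t ^ 2) {w₁ w₂ : M}
    (hw₁ : algebraMap κ M (algebraMap K κ D₁) * w₁ ^ 2 = algebraMap R M x' ^ 3 - algebraMap R M x')
    (hw₂ : algebraMap κ M (algebraMap K κ D₂) * w₂ ^ 2 = algebraMap R M x' ^ 4 - 1)
    (hsw₁ : ∀ σ, s σ w₁ = w₁) (hsw₂ : ∀ σ, s σ w₂ = w₂) :
    ∃ t : WithZero (Multiplicative ℤ), v.valuation K d = t ^ 2 := by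
  haveI h2p : Fact (Nat.Prime 2) := ⟨Nat.prime_two⟩
  have halg : Algebra.IsAlgebraic K κ := IsAlgClosure.isAlgebraic
  haveI : IsAlgClosed κ := IsAlgClosure.isAlgClosed K
  haveI : CharZero κ := charZero_of_injective_algebraMap (algebraMap K κ).injective
  haveI : Normal K κ := IsAlgClosure.normal K κ
  obtain ⟨V, hV⟩ := exists_above (K := K) κ v
  have h2V := two_unit hV h2
  obtain ⟨a, ha⟩ := IsAlgClosed.exists_pow_nat_eq (-1 : κ) (n := 4) (by norm_num)
  have haU : IsU V a := Pool.Agent.Y748.PS.isU_of_pow (m := 4) (by norm_num)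
    (by rw [ha]; exact isU_neg Pool.Agent.Y748.PS.isU_one)
  have ha5 : a ^ 5 - a = -(((2 : ℕ) : κ) * a) := by
    push_cast
    linear_combination a * ha
  have ha5U : IsU V (a ^ 5 - a) := by
    rw [ha5]
    exact isU_neg (Pool.Agent.Y748.PS.isU_mul h2V haU)
  have ha50 : a ^ 5 - a ≠ 0 := ha5U.1
  have ha8 : a ^ 8 = 1 := by
    have : a ^ 8 = (a ^ 4) ^ 2 := by ring
    rw [this, ha]
    norm_num
  have hσa : ∀ σ : κ ≃ₐ[K] κ, Ine V σ → σ a = a := fun σ hσ => ine_root8 h2V ha8 hσ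
  have hdκ : algebraMap K κ d ≠ 0 := (_root_.map_ne_zero _).2 hd
  obtain ⟨δ, hδ'⟩ := IsAlgClosed.exists_pow_nat_eq (algebraMap K κ d / (a ^ 5 - a)) two_pos
  have hδ : δ ^ 2 * (a ^ 5 - a) = algebraMap K κ d := by rw [hδ', div_mul_cancel₀ _ ha50]
  have hδ0 : δ ≠ 0 := by
    rintro rfl
    rw [zero_pow two_ne_zero, zero_mul] at hδ
    exact hdκ hδ.symm
  have hCov := hC a δ ha50 hδ
  -- the field `E`
  let E : IntermediateField K κ := IntermediateField.adjoin K {a, δ}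
  have haE : a ∈ E := IntermediateField.subset_adjoin K _ (by simp)
  have hδE : δ ∈ E := IntermediateField.subset_adjoin K _ (by simp)
  haveI hEfin : FiniteDimensional K E := by
    haveI : Finite ({a, δ} : Set κ) := Set.toFinite _
    exact IntermediateField.finiteDimensional_adjoin (S := ({a, δ} : Set κ))
      (fun z _ => (halg.isAlgebraic z).isIntegral)
  haveI : NumberField E := NumberField.of_module_finite K E
  haveI : IsAlgClosure E κ := ⟨inferInstance, Algebra.IsAlgebraic.tower_top (K := K) E⟩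
  obtain ⟨q, hqv, hq0⟩ : ∃ q : 𝓞 K, q ∈ v.asIdeal ∧ q ≠ 0 := by
    obtain ⟨q, hq, hq0⟩ := Submodule.exists_mem_ne_zero_of_ne_bot v.ne_bot
    exact ⟨q, hq, hq0⟩
  obtain ⟨v', hv'⟩ := exists_below (E := E) V (algebraMap (𝓞 K) (𝓞 E) q) (by
    intro h
    apply hq0
    have h1 : algebraMap (𝓞 E) E (algebraMap (𝓞 K) (𝓞 E) q) = 0 := by rw [h, map_zero]
    rw [← IsScalarTower.algebraMap_apply (𝓞 K) (𝓞 E) E,
      IsScalarTower.algebraMap_apply (𝓞 K) K E] at h1
    have h2 := (map_eq_zero _).1 h1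
    exact (map_eq_zero_iff _ (FaithfulSMul.algebraMap_injective (𝓞 K) K)).1 h2) (by
    rw [← IsScalarTower.algebraMap_apply (𝓞 K) (𝓞 E) E,
      IsScalarTower.algebraMap_apply (𝓞 K) K E, ← IsScalarTower.algebraMap_apply K E κ]
    exact hV.ideal q hqv)
  have hℓv : ((2 : ℕ) : 𝓞 E) ∉ v'.asIdeal := by
    rw [hv', map_natCast, map_natCast]
    exact fun h => h2V.not_nonunit h
  obtain ⟨O, hO, hu, hI⟩ := wgt_of (fun b hb => (hv' b).1 hb) hℓv hCov
    (good5 h2V haU.2.1 ha5U)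
  -- the restricted action
  let res : (κ ≃ₐ[E] κ) →* (κ ≃ₐ[K] κ) := AlgEquiv.restrictScalarsHom K
  have hres : ∀ τ z, res τ z = τ z := fun τ z => rfl
  have hfixa : ∀ τ : κ ≃ₐ[E] κ, τ a = a := fun τ => τ.commutes ⟨a, haE⟩
  have hfixδ : ∀ τ : κ ≃ₐ[E] κ, τ δ = δ := fun τ => τ.commutes ⟨δ, hδE⟩
  have hsx : ∀ σ : κ ≃ₐ[K] κ, σ a = a → s σ (algebraMap R M (x' - algebraMap κ R a)⁻¹) =
      algebraMap R M (x' - algebraMap κ R a)⁻¹ := by
    intro σ hσ
    rw [map_inv₀, map_inv₀, map_sub, map_sub, hs.fixx, ← IsScalarTower.algebraMap_apply, hs.const,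
      hσ]
  have hsy : ∀ σ : κ ≃ₐ[K] κ, s σ y' = y' := by
    intro σ
    rw [hs.fixy, map_one σ, div_one, map_one, one_mul]
  have hsec : Sec E κ R M (x' - algebraMap κ R a)⁻¹
      (algebraMap κ M δ * y' * algebraMap R M (x' - algebraMap κ R a)⁻¹ ^ 3) δ (s.comp res) := by
    refine ⟨fun τ b => hs.const _ b, fun τ => hsx _ (hfixa τ), fun τ => ?_, fun z => ?_⟩
    · change s (res τ) _ = _
      rw [map_mul, map_mul, map_pow, hs.const, hsy, hsx _ (hfixa τ), hres, map_div₀]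
      have hδM : algebraMap κ M δ ≠ 0 := (_root_.map_ne_zero _).2 hδ0
      field_simp
    · obtain ⟨E1, hE1, hE1'⟩ := hs.cont z
      let b := Module.finBasis K E1
      let T : Set κ := Set.range fun i => ((b i : E1) : κ)
      haveI : Finite T := Set.finite_range _
      refine ⟨IntermediateField.adjoin E T, ?_, fun τ hτ => ?_⟩
      · exact IntermediateField.finiteDimensional_adjoin (S := T)
          (fun z _ => (halg.isAlgebraic z).isIntegral.tower_top)
      · change s (res τ) z = z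
        refine hE1' _ ?_
        rw [IntermediateField.mem_fixingSubgroup_iff] at hτ ⊢
        intro y hy
        rw [hres]
        have h1 : y = ∑ i, (b.repr ⟨y, hy⟩ i) • ((b i : E1) : κ) := by
          have h2 := b.sum_repr ⟨y, hy⟩
          have h3 := congrArg (fun w : E1 => (w : κ)) h2
          simp only [AddSubmonoidClass.coe_finset_sum] at h3
          exact h3.symm
        rw [h1, map_sum]
        refine Finset.sum_congr rfl fun i _ => ?_
        rw [Algebra.smul_def, map_mul, hτ _ (IntermediateField.subset_adjoin E T ⟨i, rfl⟩)]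
        congr 1
        rw [IsScalarTower.algebraMap_apply K E κ]
        exact τ.commutes _
  have hI' := hI δ hδ0 (fun τ hτ => hfixδ τ) (s.comp res) hsec
  -- coordinates
  obtain ⟨X₀, hX₀⟩ : ∃ X₀ : M, X₀ = algebraMap R M x' := ⟨_, rfl⟩
  obtain ⟨t, ht⟩ : ∃ t : M, t = algebraMap R M (x' - algebraMap κ R a)⁻¹ := ⟨_, rfl⟩
  have hxa : x' - algebraMap κ R a ≠ 0 := by
    intro h0
    apply hrat.trans
    rw [sub_eq_zero.1 h0]
    exact isAlgebraic_algebraMap a
  have hxaM : X₀ - algebraMap κ M a ≠ 0 := by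
    have h1 := (_root_.map_ne_zero (algebraMap R M)).2 hxa
    rwa [map_sub, ← IsScalarTower.algebraMap_apply, ← hX₀] at h1
  have ht' : t = (X₀ - algebraMap κ M a)⁻¹ := by
    rw [ht, map_inv₀, map_sub, ← IsScalarTower.algebraMap_apply, hX₀]
  have ht0 : t ≠ 0 := by rw [ht']; exact inv_ne_zero hxaM
  have hxt : X₀ = algebraMap κ M a + t⁻¹ := by
    rw [ht', inv_inv]
    ring
  have hX₀t : Transcendental κ X₀ := by
    rw [hX₀]
    exact (transcendental_algebraMap_iff (algebraMap R M).injective).2 hrat.trans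
  have hfixX : ∀ σ, s σ X₀ = X₀ := fun σ => by rw [hX₀]; exact hs.fixx σ
  rw [← hX₀] at hy hw₁ hw₂
  rw [← ht] at hO hu hsx
  -- constants
  have hcst : ∀ {D : K}, D ≠ 0 → (∃ t, v.valuation K D = t ^ 2) → ∃ η : κ, η ≠ 0 ∧
      η ^ 2 = algebraMap K κ D ∧ ∀ σ : κ ≃ₐ[K] κ, Ine V σ → σ η = η := by
    intro D hD hev
    obtain ⟨η, hη⟩ := IsAlgClosed.exists_pow_nat_eq (algebraMap K κ D) two_pos
    refine ⟨η, ?_, hη, fun σ hσ => sqrt_ine hV h2 hD hev Pool.Agent.Y748.PS.isU_one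
      (by rw [hη, mul_one]) hσ (map_one σ)⟩
    rintro rfl
    rw [zero_pow two_ne_zero] at hη
    exact (_root_.map_ne_zero (algebraMap K κ)).2 hD hη.symm
  obtain ⟨η₁, hη₁0, hη₁, hση₁⟩ := hcst hD₁ hev₁
  obtain ⟨η₂, hη₂0, hη₂, hση₂⟩ := hcst hD₂ hev₂
  have hη₁M : algebraMap κ M η₁ ≠ 0 := (_root_.map_ne_zero _).2 hη₁0
  have hη₂M : algebraMap κ M η₂ ≠ 0 := (_root_.map_ne_zero _).2 hη₂0
  have hδM : algebraMap κ M δ ≠ 0 := (_root_.map_ne_zero _).2 hδ0
  have haV : a ∈ V := haU.2.1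
  -- the units
  obtain ⟨P₁, hP₁⟩ : ∃ P₁ : V[X], P₁ = ((1 + C ⟨a, haV⟩ * X) ^ 3 -
      (1 + C ⟨a, haV⟩ * X) * X ^ 2) * X := ⟨_, rfl⟩
  obtain ⟨P₂, hP₂⟩ : ∃ P₂ : V[X], P₂ = (1 + C ⟨a, haV⟩ * X) ^ 4 - X ^ 4 := ⟨_, rfl⟩
  obtain ⟨P₃, hP₃⟩ : ∃ P₃ : V[X], P₃ = ((1 + C ⟨a, haV⟩ * X) ^ 5 -
      (1 + C ⟨a, haV⟩ * X) * X ^ 4) * X := ⟨_, rfl⟩
  have hmapC : ∀ z : V, (C z : V[X]).map V.subtype = C (z : κ) := fun z => by
    rw [Polynomial.map_C]; rfl
  obtain ⟨U₁, hU₁⟩ : ∃ U : M, U = algebraMap κ M η₁ * w₁ * t ^ 2 := ⟨_, rfl⟩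
  obtain ⟨U₂, hU₂⟩ : ∃ U : M, U = algebraMap κ M η₂ * w₂ * t ^ 2 := ⟨_, rfl⟩
  obtain ⟨Y, hY⟩ : ∃ Y : M, Y = algebraMap κ M δ * y' * t ^ 3 := ⟨_, rfl⟩
  have hU₁2 : U₁ ^ 2 = aeval t (P₁.map V.subtype) := by
    have h1 : algebraMap κ M η₁ ^ 2 * w₁ ^ 2 = X₀ ^ 3 - X₀ := by
      rw [← map_pow, hη₁, hw₁]
    have h3 : U₁ ^ 2 = (algebraMap κ M η₁ ^ 2 * w₁ ^ 2) * t ^ 4 := by rw [hU₁]; ring
    rw [h3, h1, hxt, hP₁]
    simp only [Polynomial.map_mul, Polynomial.map_sub, Polynomial.map_pow, Polynomial.map_add,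
      Polynomial.map_one, hmapC, Polynomial.map_X, map_mul, map_sub, map_pow, map_add, map_one,
      aeval_C, aeval_X]
    field_simp
    ring
  have hU₂2 : U₂ ^ 2 = aeval t (P₂.map V.subtype) := by
    have h1 : algebraMap κ M η₂ ^ 2 * w₂ ^ 2 = X₀ ^ 4 - 1 := by
      rw [← map_pow, hη₂, hw₂]
    have h3 : U₂ ^ 2 = (algebraMap κ M η₂ ^ 2 * w₂ ^ 2) * t ^ 4 := by rw [hU₂]; ring
    rw [h3, h1, hxt, hP₂]
    simp only [Polynomial.map_mul, Polynomial.map_sub, Polynomial.map_pow, Polynomial.map_add,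
      Polynomial.map_one, hmapC, Polynomial.map_X, map_mul, map_sub, map_pow, map_add, map_one,
      aeval_C, aeval_X]
    field_simp
    ring
  have hY2 : algebraMap κ M (a ^ 5 - a) * Y ^ 2 = aeval t (P₃.map V.subtype) := by
    have h1 : algebraMap κ M (a ^ 5 - a) * (algebraMap κ M δ ^ 2 * y' ^ 2) = X₀ ^ 5 - X₀ := by
      rw [← hy, ← hδ, map_mul, map_pow]
      ring
    have h3 : algebraMap κ M (a ^ 5 - a) * Y ^ 2 =
      (algebraMap κ M (a ^ 5 - a) * (algebraMap κ M δ ^ 2 * y' ^ 2)) * t ^ 6 := by rw [hY]; ring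
    rw [h3, h1, hxt, hP₃]
    simp only [Polynomial.map_mul, Polynomial.map_sub, Polynomial.map_pow, Polynomial.map_add,
      Polynomial.map_one, hmapC, Polynomial.map_X, map_mul, map_sub, map_pow, map_add, map_one,
      aeval_C, aeval_X]
    field_simp
    ring
  have hU₁U : IsU O U₁ := by
    refine Pool.Agent.Y748.PS.isU_of_pow two_pos ?_
    rw [hU₁2]
    refine isU_aeval hO P₁ 1 ?_
    rw [hP₁, coeff_mul_X]
    simp [coeff_zero_eq_eval_zero]
  have hU₂U : IsU O U₂ := by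
    refine Pool.Agent.Y748.PS.isU_of_pow two_pos ?_
    rw [hU₂2]
    refine isU_aeval hO P₂ 0 ?_
    rw [hP₂]
    simp [coeff_zero_eq_eval_zero]
  have haM : IsU O (algebraMap κ M (a ^ 5 - a)) := by
    refine ⟨(_root_.map_ne_zero _).2 ha50, (hO.1 _).2 ha5U.2.1, ?_⟩
    rw [← map_inv₀]
    exact (hO.1 _).2 ha5U.2.2
  have hYU : IsU O Y := by
    refine Pool.Agent.Y748.PS.isU_of_pow two_pos ?_
    have h1 : IsU O (algebraMap κ M (a ^ 5 - a) * Y ^ 2) := by
      rw [hY2]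
      refine isU_aeval hO P₃ 1 ?_
      rw [hP₃, coeff_mul_X]
      simp [coeff_zero_eq_eval_zero]
    have h3 : Y ^ 2 = (algebraMap κ M (a ^ 5 - a))⁻¹ * (algebraMap κ M (a ^ 5 - a) * Y ^ 2) := by
      rw [inv_mul_cancel_left₀ haM.1]
    rw [h3]
    exact Pool.Agent.Y748.PS.isU_mul (isU_inv' haM) h1
  have h2O : IsU O (2 : M) := by
    have h1 : algebraMap κ M ((2 : ℕ) : κ) = 2 := by rw [map_natCast]; norm_num
    refine ⟨?_, ?_, ?_⟩
    · rw [← h1]; exact (_root_.map_ne_zero _).2 h2V.1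
    · rw [← h1]; exact (hO.1 _).2 h2V.2.1
    · rw [← h1, ← map_inv₀]; exact (hO.1 _).2 h2V.2.2
  -- inertia elements fix `δ`
  have hfixδ : ∀ σ : κ ≃ₐ[K] κ, Ine V σ → σ δ = δ := by
    intro σ hσ
    by_contra hne
    have h3 : σ δ = -δ := by
      have h4 : (σ δ) ^ 2 = δ ^ 2 := by
        rw [← map_pow, hδ', map_div₀, σ.commutes, map_sub, map_pow, hσa σ hσ]
      have h5 : (σ δ - δ) * (σ δ + δ) = 0 := by linear_combination h4
      rcases mul_eq_zero.1 h5 with h | h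
      · exact absurd (sub_eq_zero.1 h) hne
      · exact eq_neg_of_add_eq_zero_left h
    -- the square
    have hσ2a : (σ ^ 2) a = a := by
      rw [pow_two, AlgEquiv.mul_apply, hσa σ hσ, hσa σ hσ]
    have hσ2δ : (σ ^ 2) δ = δ := by
      rw [pow_two, AlgEquiv.mul_apply, h3, map_neg, h3, neg_neg]
    have hσE : ∀ z ∈ E, (σ ^ 2) z = z := by
      intro z hz
      have h1 : E ≤ IntermediateField.fixedField (Subgroup.zpowers (σ ^ 2)) := by
        rw [IntermediateField.adjoin_le_iff]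
        have key : ∀ b : κ, (σ ^ 2) b = b →
            b ∈ IntermediateField.fixedField (Subgroup.zpowers (σ ^ 2)) := by
          intro b hb
          rw [IntermediateField.mem_fixedField_iff]
          intro f hf
          obtain ⟨n, rfl⟩ := Subgroup.mem_zpowers_iff.1 hf
          have h5 : σ ^ 2 ∈ MulAction.stabilizer (κ ≃ₐ[K] κ) b := hb
          exact (MulAction.stabilizer (κ ≃ₐ[K] κ) b).zpow_mem h5 n
        rintro b (rfl | hb)
        · exact key _ hσ2a
        · rw [Set.mem_singleton_iff] at hb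
          rw [hb]
          exact key _ hσ2δ
      have h2 := h1 hz
      rw [IntermediateField.mem_fixedField_iff] at h2
      exact h2 _ (Subgroup.mem_zpowers _)
    let τ : κ ≃ₐ[E] κ := AlgEquiv.ofRingEquiv (f := ((σ ^ 2 : κ ≃ₐ[K] κ) : κ ≃+* κ))
      (fun z => hσE z z.2)
    have hτ : res τ = σ ^ 2 := by ext z; rfl
    have hτI : Ine V τ := by
      have h6 := Pool.Agent.Y748.PS.ine_mul hσ hσ
      rw [← pow_two] at h6
      exact h6
    have hφℓ : ∀ z ∈ O, ((s σ) ^ 2) z - z ∈ O.nonunits := by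
      intro z hz
      have h1 := hI' τ hτI z hz
      change s (res τ) z - z ∈ _ at h1
      rw [hτ, map_pow] at h1
      exact h1
    rw [ht] at hO hu
    obtain ⟨γ, hγ, hγφ⟩ := lift1 hCov h2V hO hu (s σ) (σ : κ ≃+* κ)
      (fun b => hs.const σ b) hσ.1 hσ.2 (by rw [← ht]; exact hsx σ (hσa σ hσ)) hφℓ
    have hγc : ∀ c : κ, γ (algebraMap κ M c) = algebraMap κ M c := fun c =>
      Pool.Agent.Y748.PS.gal_const γ c
    have hγX : γ X₀ = X₀ := by rw [hX₀]; exact γ.commutes _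
    have hγt : γ t = t := by rw [ht]; exact γ.commutes _
    have hst : s σ t = t := hsx σ (hσa σ hσ)
    -- signs
    have hsign : ∀ U U' : M, IsU O U → (γ U) ^ 2 = U ^ 2 → (U' = U ∨ U' = -U) →
        γ U - U' ∈ O.nonunits → γ U = U' := by
      intro U U' hU hsq hU' h
      have h5 : (γ U - U) * (γ U + U) = 0 := by linear_combination hsq
      rcases hU' with rfl | rfl
      · rcases mul_eq_zero.1 h5 with h6 | h6
        · exact sub_eq_zero.1 h6
        · exfalso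
          have h7 : γ U' - U' = U' * -2 := by linear_combination h6
          rw [h7] at h
          have h8 := non_of_isU_mul hU h
          exact (isU_neg h2O).not_nonunit h8
      · rcases mul_eq_zero.1 h5 with h6 | h6
        · exfalso
          have h7 : γ U - -U = U * 2 := by linear_combination h6
          rw [h7] at h
          have h8 := non_of_isU_mul hU h
          exact h2O.not_nonunit h8
        · linear_combination h6
    have hsqM : ∀ U : M, (∃ q : κ[X], U ^ 2 = aeval t q) → (γ U) ^ 2 = U ^ 2 := by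
      rintro U ⟨q, hq⟩
      rw [← map_pow, hq]
      have h6 := Pool.Agent.Y158.FQ.map_aeval' (γ : M ≃+* M) (RingEquiv.refl κ)
        (fun c => hγc c) t q
      have h7 : (q.map ((RingEquiv.refl κ : κ ≃+* κ) : κ →+* κ)) = q := by
        ext n
        rw [coeff_map]
        rfl
      rw [h7] at h6
      have h8 : (γ : M ≃+* M) t = t := hγt
      rw [h8] at h6
      exact h6
    have hγU₁ : γ U₁ = U₁ := by
      refine hsign U₁ U₁ hU₁U (hsqM U₁ ⟨_, hU₁2⟩) (Or.inl rfl) ?_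
      have h6 := hγφ U₁ hU₁U.2.1
      have h7 : s σ U₁ = U₁ := by
        rw [hU₁, map_mul, map_mul, map_pow, hs.const, hsw₁, hst, hση₁ σ hσ]
      rwa [h7] at h6
    have hγU₂ : γ U₂ = U₂ := by
      refine hsign U₂ U₂ hU₂U (hsqM U₂ ⟨_, hU₂2⟩) (Or.inl rfl) ?_
      have h6 := hγφ U₂ hU₂U.2.1
      have h7 : s σ U₂ = U₂ := by
        rw [hU₂, map_mul, map_mul, map_pow, hs.const, hsw₂, hst, hση₂ σ hσ]
      rwa [h7] at h6
    have hγY : γ Y = -Y := by
      refine hsign Y (-Y) hYU (hsqM Y ⟨C (a ^ 5 - a)⁻¹ * P₃.map V.subtype, ?_⟩) (Or.inr rfl) ?_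
      · rw [map_mul, aeval_C, ← hY2, map_inv₀, inv_mul_cancel_left₀ haM.1]
      · have h6 := hγφ Y hYU.2.1
        have h7 : s σ Y = -Y := by
          rw [hY, map_mul, map_mul, map_pow, hs.const, hsy, hst, h3, map_neg]
          ring
        rwa [h7] at h6
    have ht3 : t ^ 3 ≠ 0 := pow_ne_zero 3 ht0
    have ht2 : t ^ 2 ≠ 0 := pow_ne_zero 2 ht0
    refine no_inv hCov (X := X₀) (y := y') (w₁ := w₁) (w₂ := w₂) hX₀t hdκ
      ((_root_.map_ne_zero _).2 hD₁) ((_root_.map_ne_zero _).2 hD₂) hy hw₁ hw₂ γ hγ hγX ?_ ?_ ?_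
    · rw [hY, map_mul, map_mul, map_pow, hγc, hγt] at hγY
      apply mul_left_cancel₀ hδM
      apply mul_right_cancel₀ ht3
      rw [hγY]
      ring
    · rw [hU₁, map_mul, map_mul, map_pow, hγc, hγt] at hγU₁
      exact mul_left_cancel₀ hη₁M (mul_right_cancel₀ ht2 hγU₁)
    · rw [hU₂, map_mul, map_mul, map_pow, hγc, hγt] at hγU₂
      exact mul_left_cancel₀ hη₂M (mul_right_cancel₀ ht2 hγU₂)
  -- the conclusion
  obtain ⟨β, hβ⟩ := IsAlgClosed.exists_pow_nat_eq (a ^ 5 - a) two_pos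
  have hβ0 : β ≠ 0 := by
    rintro rfl
    rw [zero_pow two_ne_zero] at hβ
    exact ha50 hβ.symm
  have hη : (δ * β) ^ 2 = algebraMap K κ d := by rw [mul_pow, hβ, hδ]
  obtain ⟨t', ht'⟩ := hV.pow (ℓ := 2) (by exact_mod_cast h2) (mul_ne_zero hδ0 hβ0) (fun σ hσ => by
    rw [map_mul, hfixδ σ hσ, sqrt_ine hV h2 (d := (1 : K)) one_ne_zero ⟨1, by
      rw [map_one, one_pow]⟩ ha5U (by rw [hβ, map_one, one_mul]) hσ (by
      rw [map_sub, map_pow, hσa σ hσ])]) hη.symm
  exact ⟨_, ht'⟩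

end Pool.Agent.K3h82.FQ4
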