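import Pool.Agent.K3h82.FQ4.Par6
import Pool.Agent.K3h82.FQ4.Geo
import Pool.Agent.K3h82.BT.KT

/-!
# The parity of the twist of the curve of genus two, for sections
-/

set_option autoImplicit false
set_option linter.all false

open Polynomial FF Pool.Agent.Y157.PS Pool.Agent.TH954 IsDedekindDomain NumberField

namespace Pool.Agent.K3h82.FQ4

open Pool.Agent.Y158.GR Pool.Agent.K3h82.BT
open Pool.Agent.Y158.FQ (adjoin_pair_top)

section

variable {K : Type} [Field K] [NumberField K] {F Ω B : Type} [Field F] [Field Ω] [Field B]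
  [Algebra K F] [Algebra F Ω] [Algebra K Ω] [Algebra K B] [IsScalarTower K F Ω] [IsAlgClosed Ω]
  [Algebra.IsAlgebraic F Ω] [IsAlgClosure K B]
  {C Lv : Type} [Field C] [Field Lv] [Algebra Lv C] [Algebra K C]

theorem parF (x y w₁ w₂ : F) (hx : Transcendental K x)
    (hFx : Algebra.IsAlgebraic (IntermediateField.adjoin K {x}) F) {d D₁ D₂ : K} (hd : d ≠ 0)
    (hD₁ : D₁ ≠ 0) (hD₂ : D₂ ≠ 0) {v : HeightOneSpectrum (𝓞 K)} (h2 : (2 : 𝓞 K) ∉ v.asIdeal)
    (hev₁ : ∃ t : WithZero (Multiplicative ℤ), v.valuation K D₁ = t ^ 2)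
    (hev₂ : ∃ t : WithZero (Multiplicative ℤ), v.valuation K D₂ = t ^ 2)
    (hxy : algebraMap K F d * y ^ 2 = x ^ 5 - x)
    (hw₁ : algebraMap K F D₁ * w₁ ^ 2 = x ^ 3 - x)
    (hw₂ : algebraMap K F D₂ * w₂ ^ 2 = x ^ 4 - 1) (N : IntermediateField F Ω)
    (hN : ∀ z ∈ geomPro 2 K (IntermediateField.adjoin K {x, y}) Ω, z ∈ N)
    (s : GalSection K F N B) (p : Plc K N C) (hpv : s.GivenBy Lv p) :
    ∃ t : WithZero (Multiplicative ℤ), v.valuation K d = t ^ 2 := by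
  classical
  haveI h2p : Fact (Nat.Prime 2) := ⟨Nat.prime_two⟩
  have hac : IsAlgClosure K (algebraicClosure K Ω) := inferInstance
  have hkb : IsAlgClosed (algebraicClosure K Ω) := hac.1
  have hch : CharZero (algebraicClosure K Ω) :=
    charZero_of_injective_algebraMap (algebraMap K (algebraicClosure K Ω)).injective
  have hXt : Transcendental K (algebraMap F Ω x) :=
    (transcendental_algebraMap_iff (R := K) (algebraMap F Ω).injective (a := x)).2 hx
  have halg : Algebra.IsAlgebraic (IntermediateField.adjoin (algebraicClosure K Ω)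
      {algebraMap F Ω x}) Ω := halg_acl hFx
  have hdκ : algebraMap K (algebraicClosure K Ω) d ≠ 0 := (_root_.map_ne_zero _).2 hd
  have hD₁κ : algebraMap K (algebraicClosure K Ω) D₁ ≠ 0 := (_root_.map_ne_zero _).2 hD₁
  have hD₂κ : algebraMap K (algebraicClosure K Ω) D₂ ≠ 0 := (_root_.map_ne_zero _).2 hD₂
  have htr : ∀ (D : K) (w f : F), algebraMap K F D * w ^ 2 = f →
      algebraMap (algebraicClosure K Ω) Ω (algebraMap K (algebraicClosure K Ω) D) *
      (algebraMap F Ω w) ^ 2 = algebraMap F Ω f := by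
    intro D w f h
    rw [← IsScalarTower.algebraMap_apply, IsScalarTower.algebraMap_apply K F Ω, ← map_pow,
      ← map_mul, h]
  have hYΩ := htr d y _ hxy
  rw [map_sub, map_pow] at hYΩ
  have hW₁Ω := htr D₁ w₁ _ hw₁
  rw [map_sub, map_pow] at hW₁Ω
  have hW₂Ω := htr D₂ w₂ _ hw₂
  rw [map_sub, map_pow, map_one] at hW₂Ω
  -- the square roots are in the covering field
  have hwm : ∀ w : Ω, w ∈ ({algebraMap F Ω w₁, algebraMap F Ω w₂} : Set Ω) →
      w ∈ geomPro 2 K (IntermediateField.adjoin K {x, y}) Ω := by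
    intro w hw
    refine gp_iff.2 ((tow5 (κ := algebraicClosure K Ω) (trans_up hXt) halg hdκ hD₁κ hD₂κ hYΩ hW₁Ω
      hW₂Ω).1 ?_)
    exact (maxPro 2 (algebraicClosure K Ω) (IntermediateField.adjoin (IntermediateField.adjoin
      (algebraicClosure K Ω) {algebraMap F Ω x}) {algebraMap F Ω w₁, algebraMap F Ω w₂})
      Ω).algebraMap_mem ⟨w, IntermediateField.subset_adjoin _ _ hw⟩
  have hwm₁ := hwm (algebraMap F Ω w₁) (by simp)
  have hwm₂ := hwm (algebraMap F Ω w₂) (by simp)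
  -- the restricted section
  obtain ⟨F₀, hF₀⟩ : ∃ F₀ : IntermediateField K F, F₀ = IntermediateField.adjoin K {x, y} :=
    ⟨_, rfl⟩
  have hxF : x ∈ F₀ := by rw [hF₀]; exact IntermediateField.subset_adjoin K _ (by simp)
  have hyF : y ∈ F₀ := by rw [hF₀]; exact IntermediateField.subset_adjoin K _ (by simp)
  rw [← hF₀] at hN hwm₁ hwm₂
  obtain ⟨eB, s₀, p₀, hj₀, hpv₀, hs₀, hval, -, hFΩ⟩ :=
    res_sec (ℓ := 2) hx hFx F₀ hxF N hN s p hpv
  have htop := adjoin_pair_top hF₀ hxF hyF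
  have hx0 : Transcendental K (⟨x, hxF⟩ : F₀) := trans_sub hx hxF
  have hxy0 : algebraMap K F₀ d * (⟨y, hyF⟩ : F₀) ^ 2 = (⟨x, hxF⟩ : F₀) ^ 5 - ⟨x, hxF⟩ :=
    Subtype.ext hxy
  obtain ⟨R, M, i1, i2, i3, i4, i5, i6, x', y', eqv, hrat, hCall, hc, hx', hy'⟩ :=
    glue5 (Ω := Ω) (⟨x, hxF⟩ : F₀) ⟨y, hyF⟩ hx0 htop hd hxy0
  have hcompat := compat_of s₀ hj₀
  have hSec := sec_of (δ := (1 : algebraicClosure K Ω)) one_ne_zero hc hx' (by
    rw [hy']
    change _ = 1 * algebraMap F₀ Ω ⟨y, hyF⟩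
    rw [one_mul]) s₀.s s₀.cont hcompat
  have e1 : algebraMap F₀ Ω ⟨x, hxF⟩ = algebraMap F Ω x := rfl
  have e1y : algebraMap F₀ Ω ⟨y, hyF⟩ = algebraMap F Ω y := rfl
  have e2 : ∀ D : K, ((algebraMap K (algebraicClosure K Ω) D : algebraicClosure K Ω) : Ω) =
      algebraMap (algebraicClosure K Ω) Ω (algebraMap K (algebraicClosure K Ω) D) := fun D => rfl
  have hfix : ∀ (w : F) (hw : algebraMap F Ω w ∈ geomPro 2 K F₀ Ω) (σ),
      conjSec eqv s₀.s σ (eqv.symm ⟨_, hw⟩) = eqv.symm ⟨_, hw⟩ := by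
    intro w hw σ
    apply eqv.injective
    rw [conjSec_apply, eqv.apply_symm_apply]
    apply Subtype.ext
    have h1 := hs₀ (AlgEquiv.autCongr eB.symm σ) (algebraMap F N w) ⟨_, hw⟩ rfl
    have h2 : AlgEquiv.autCongr eB (AlgEquiv.autCongr eB.symm σ) = σ := by
      ext b
      change ((eB (eB.symm (σ (eB (eB.symm b)))) : algebraicClosure K Ω) : Ω) = _
      rw [eB.apply_symm_apply, eB.apply_symm_apply]
    rw [h2, (s.s _).commutes] at h1
    exact h1
  refine par6 hrat hd hCall hSec ?_ h2 hD₁ hD₂ hev₁ hev₂ (w₁ := eqv.symm ⟨_, hwm₁⟩)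
    (w₂ := eqv.symm ⟨_, hwm₂⟩) ?_ ?_ (hfix w₁ hwm₁) (hfix w₂ hwm₂)
  · apply eqv.injective
    apply Subtype.ext
    rw [map_mul, map_pow, map_sub, map_pow]
    change ((eqv (algebraMap (algebraicClosure K Ω) M (algebraMap K (algebraicClosure K Ω) d)) :
      geomPro 2 K F₀ Ω) : Ω) * ((eqv y' : geomPro 2 K F₀ Ω) : Ω) ^ 2 =
        ((eqv (algebraMap R M x') : geomPro 2 K F₀ Ω) : Ω) ^ 5 -
          ((eqv (algebraMap R M x') : geomPro 2 K F₀ Ω) : Ω)
    rw [hc, hx', hy', e1, e1y, e2, hYΩ]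
  · apply eqv.injective
    apply Subtype.ext
    rw [map_mul, map_pow, map_sub, map_pow, eqv.apply_symm_apply]
    change ((eqv (algebraMap (algebraicClosure K Ω) M (algebraMap K (algebraicClosure K Ω) D₁)) :
      geomPro 2 K F₀ Ω) : Ω) * (algebraMap F Ω w₁) ^ 2 =
        ((eqv (algebraMap R M x') : geomPro 2 K F₀ Ω) : Ω) ^ 3 -
          ((eqv (algebraMap R M x') : geomPro 2 K F₀ Ω) : Ω)
    rw [hc, hx', e1, e2, hW₁Ω]
  · apply eqv.injective
    apply Subtype.ext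
    rw [map_mul, map_pow, map_sub, map_pow, map_one, eqv.apply_symm_apply]
    change ((eqv (algebraMap (algebraicClosure K Ω) M (algebraMap K (algebraicClosure K Ω) D₂)) :
      geomPro 2 K F₀ Ω) : Ω) * (algebraMap F Ω w₂) ^ 2 =
        ((eqv (algebraMap R M x') : geomPro 2 K F₀ Ω) : Ω) ^ 4 - 1
    rw [hc, hx', e1, e2, hW₂Ω]

end

end Pool.Agent.K3h82.FQ4
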