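import Pool.Agent.K3h82.BT.GSub
import Pool.Agent.Y158.FQ.Eqv2

/-!
# The covering field of an abelian covering of the line
-/

set_option autoImplicit false
set_option linter.all false

open Polynomial FF Pool.Agent.Y157.PS Pool.Agent.Y948.PS

namespace Pool.Agent.K3h82.FQ4

open Pool.Agent.K3h82.BT

section gen

variable {κ R Ω : Type} [Field κ] [Field R] [Field Ω] [Algebra κ R] [Algebra R Ω] [Algebra κ Ω]
  [IsScalarTower κ R Ω]

/-- upper bound for `maxPro`, for a Galois extension `K0` of `R` of exponent dividing `ℓ ^ m` -/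
theorem maxPro_le' [IsAlgClosed κ] {ℓ : ℕ} [Fact ℓ.Prime] [Algebra.IsAlgebraic R Ω] [Normal R Ω]
    {x : R} (hx : RatF κ x) {K0 : IntermediateField R Ω}
    (hst : ∀ (γ : Ω ≃ₐ[R] Ω), ∀ t ∈ K0, γ t ∈ K0) {m : ℕ}
    (hm : ∀ (γ : Ω ≃ₐ[R] Ω), ∀ t ∈ K0, (γ ^ (ℓ ^ m)) t = t)
    (hU : HU κ K0) {z : Ω} (hz : z ∈ maxPro ℓ κ K0 Ω) : Mem ℓ κ K0 z := by
  have hP0 : ∀ t ∈ K0, Mem ℓ κ K0 t := fun t ht =>
    ⟨⟨m, fun σ γ => hm σ _ (hst γ t ht)⟩, fun W h1 h2 => Apx.of_mem ht⟩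
  let MK : IntermediateField K0 Ω :=
    { (MF ℓ κ K0).toSubfield with
      algebraMap_mem' := fun r => hP0 _ r.2
      inv_mem' := fun a ha => (MF ℓ κ K0).inv_mem ha }
  have hle : maxPro ℓ κ K0 Ω ≤ MK := by
    refine iSup_le ?_
    rintro ⟨L, hL, hLu⟩ y hy
    change Mem ℓ κ K0 y
    constructor
    · obtain ⟨a, ha⟩ := hL.card
      haveI := hL.fin
      haveI := hL.gal
      refine ⟨m + a, fun σ γ => ?_⟩
      set τ : Ω ≃ₐ[R] Ω := γ⁻¹ * σ * γ with hτ
      have h2 : τ ^ (ℓ ^ m) ∈ K0.fixingSubgroup := by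
        rw [IntermediateField.mem_fixingSubgroup_iff]
        intro t ht
        exact hm τ t ht
      let τ' : Ω ≃ₐ[K0] Ω := IntermediateField.fixingSubgroupEquiv K0 ⟨τ ^ (ℓ ^ m), h2⟩
      have h3 : ∀ (j : ℕ) (w : Ω), (τ' ^ j) w = ((τ ^ (ℓ ^ m)) ^ j) w := by
        intro j
        induction j with
        | zero => intro w; simp
        | succ j ih =>
          intro w
          rw [pow_succ, AlgEquiv.mul_apply, ih, pow_succ, AlgEquiv.mul_apply]
          rfl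
      have h4 : (AlgEquiv.restrictNormalHom L τ') ^ (ℓ ^ a) = 1 := by
        rw [← ha, ← IsGalois.card_aut_eq_finrank]
        exact pow_card_eq_one'
      rw [← map_pow] at h4
      have h5 : (τ' ^ (ℓ ^ a)) y = y := by
        have := AlgEquiv.restrictNormal_commutes (τ' ^ (ℓ ^ a)) L ⟨y, hy⟩
        have h6 : (τ' ^ (ℓ ^ a)).restrictNormal L = 1 := h4
        rw [h6] at this
        exact this.symm
      rw [h3, ← pow_mul, ← pow_add] at h5
      have h7 : γ⁻¹ * σ ^ (ℓ ^ (m + a)) * γ = τ ^ (ℓ ^ (m + a)) := by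
        rw [hτ]
        have := conj_pow (i := ℓ ^ (m + a)) (a := γ⁻¹) (b := σ)
        rw [inv_inv] at this
        exact this.symm
      rw [← h7] at h5
      have h8 : γ (γ⁻¹ ((σ ^ (ℓ ^ (m + a))) (γ y))) = γ y := by
        congr 1
      have h9 : ∀ w, γ (γ⁻¹ w) = w := fun w => by
        rw [← AlgEquiv.mul_apply, mul_inv_cancel, AlgEquiv.one_apply]
      rwa [h9] at h8
    · intro W hκ hW
      obtain ⟨π, hπ⟩ := hU W hκ hW
      refine Apx.of_unr hπ (hres hx K0 W hκ hW) L.toSubfield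
        (fun t ht => L.algebraMap_mem ⟨t, ht⟩) ?_ hy
      intro w hw hw0
      obtain ⟨t, ht0, ht⟩ := hLu W hκ w hw hw0
      have ht0' : (t : Ω) ≠ 0 := by simpa using ht0
      refine ⟨t, t.2, ht0', ?_⟩
      have h1 := (isU_iff W).1 ht
      have h2 : algebraMap K0 Ω t = (t : Ω) := rfl
      rw [h2, map_div₀] at h1
      rwa [div_eq_one_iff_eq] at h1
      exact ((Valuation.pos_iff _).2 ht0').ne'
  exact hle hz

/-- lower bound for `maxPro` -/
theorem le_maxPro' [CharZero κ] [IsAlgClosed κ] {ℓ : ℕ} [Fact ℓ.Prime] [Algebra.IsAlgebraic R Ω]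
    [Normal R Ω] {K0 : IntermediateField R Ω}
    (hst : ∀ (γ : Ω ≃ₐ[R] Ω), ∀ t ∈ K0, γ t ∈ K0) {m : ℕ}
    (hm : ∀ (γ : Ω ≃ₐ[R] Ω), ∀ t ∈ K0, (γ ^ (ℓ ^ m)) t = t)
    (hU : HU κ K0) {z : Ω} (hz : Mem ℓ κ K0 z) : z ∈ maxPro ℓ κ K0 Ω := by
  have hle : K0 ≤ MF ℓ κ K0 := fun t ht =>
    ⟨⟨m, fun σ γ => hm σ _ (hst γ t ht)⟩, fun W h1 h2 => Apx.of_mem ht⟩
  haveI : CharZero K0 := charZero_of_injective_algebraMap (algebraMap κ K0).injective
  haveI : Normal K0 Ω := Normal.tower_top_of_normal R K0 Ω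
  let S : IntermediateField K0 Ω := IntermediateField.extendScalars hle
  have hS : ∀ y, y ∈ S ↔ Mem ℓ κ K0 y := fun y => IntermediateField.mem_extendScalars hle
  have hres : ∀ (σ : Ω ≃ₐ[K0] Ω) (j : ℕ) (w : Ω), (σ ^ j) w = ((σ.restrictScalars R) ^ j) w := by
    intro σ j
    induction j with
    | zero => intro w; simp
    | succ j ih =>
      intro w
      rw [pow_succ, AlgEquiv.mul_apply, ih, pow_succ, AlgEquiv.mul_apply]
      rfl
  obtain ⟨N, hzN, hNS, hN⟩ := exists_lev (ℓ := ℓ) S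
    (fun σ y hy => (hS _).2 (((hS y).1 hy).conj hst (σ.restrictScalars R)))
    (fun θ hθ σ => by
      obtain ⟨k, hk⟩ := ((hS θ).1 hθ).1
      refine ⟨k, ?_⟩
      rw [hres]
      exact hk (σ.restrictScalars R) 1)
    ((hS z).2 hz)
  have hNu : Unr κ K0 Ω N := by
    intro W hκ w hw hw0
    by_cases hW : W = ⊤
    · refine ⟨1, one_ne_zero, ?_, ?_, ?_⟩
      · rw [map_one, div_one]; exact hw0
      · rw [hW]; trivial
      · rw [hW]; trivial
    · obtain ⟨π, hπ⟩ := hU W hκ hW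
      obtain ⟨t, ht, ht0, h1⟩ := (((hS w).1 (hNS hw)).2 W hκ hW).val hπ hw0
      refine ⟨⟨t, ht⟩, fun h => ht0 (congrArg Subtype.val h), ?_⟩
      rw [isU_iff]
      have h2 : algebraMap K0 Ω ⟨t, ht⟩ = t := rfl
      rw [h2, map_div₀, h1, div_self]
      exact ((Valuation.pos_iff _).2 ht0).ne'
  have h3 : N ≤ maxPro ℓ κ K0 Ω :=
    le_iSup (fun L : {L : IntermediateField K0 Ω // Lev ℓ L ∧ Unr κ K0 Ω L} => L.1) ⟨N, hN, hNu⟩
  exact h3 hzN

end gen

section tow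

variable {κ R Ω : Type} [Field κ] [IsAlgClosed κ] [CharZero κ] [Field R]
  [Field Ω] [Algebra κ R] [Algebra R Ω] [Algebra κ Ω] [IsScalarTower κ R Ω] [IsAlgClosure R Ω]
  {ℓ : ℕ} [hp : Fact ℓ.Prime]

/-- **the covering fields of the curve `Y ^ ℓ = ∏ (x - e)` and of the curve with the function field
`κ(x, Z₁, Z₂)` agree** -/
theorem tow {x : R} (hx : RatF κ x) {A₁ A₂ B : Finset κ} (h1B : A₁ ⊆ B) (h2B : A₂ ⊆ B)
    (hcov : ∀ e ∈ B, e ∈ A₁ ∨ e ∈ A₂) (hA₁ : ℓ ∣ A₁.card) (hA₂ : ℓ ∣ A₂.card)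
    (hA₁ne : A₁.Nonempty) (hA₂ne : A₂.Nonempty) (hB : ℓ ∣ B.card) (hB3 : 3 ≤ B.card)
    {Z₁ Z₂ Y : Ω}
    (hZ₁ : Z₁ ^ ℓ = ∏ e ∈ A₁, (algebraMap R Ω x - algebraMap κ Ω e))
    (hZ₂ : Z₂ ^ ℓ = ∏ e ∈ A₂, (algebraMap R Ω x - algebraMap κ Ω e))
    (hY : Y ^ ℓ = ∏ e ∈ B, (algebraMap R Ω x - algebraMap κ Ω e)) (z : Ω) :
    z ∈ maxPro ℓ κ (IntermediateField.adjoin R {Z₁, Z₂}) Ω ↔
      z ∈ maxPro ℓ κ (IntermediateField.adjoin R {Y}) Ω := by
  haveI : CharZero R := charZero_of_injective_algebraMap (algebraMap κ R).injective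
  haveI : Algebra.IsAlgebraic R Ω := IsAlgClosure.isAlgebraic
  haveI : IsAlgClosed Ω := IsAlgClosure.isAlgClosed R
  haveI : Normal R Ω := IsAlgClosure.normal R Ω
  have hℓ0 : ℓ ≠ 0 := hp.out.ne_zero
  have hμ : ∀ ζ : Ω, ζ ^ ℓ = 1 → ∃ c : R, algebraMap R Ω c = ζ := fun ζ => muR (κ := κ) hℓ0 ζ
  have hBne : B.Nonempty := hA₁ne.mono h1B
  have hUY := hu_of hx hB hBne hY
  obtain ⟨KC, hKC⟩ : ∃ K : IntermediateField R Ω, K = IntermediateField.adjoin R {Y} := ⟨_, rfl⟩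
  obtain ⟨KA, hKA⟩ : ∃ K : IntermediateField R Ω, K = IntermediateField.adjoin R {Z₁, Z₂} :=
    ⟨_, rfl⟩
  obtain ⟨K₁, hK₁⟩ : ∃ K : IntermediateField R Ω, K = IntermediateField.adjoin R {Z₁, Z₂, Y} :=
    ⟨_, rfl⟩
  have hYC : Y ∈ KC := by rw [hKC]; exact IntermediateField.mem_adjoin_simple_self R Y
  have hZ₁A : Z₁ ∈ KA := by rw [hKA]; exact IntermediateField.subset_adjoin R _ (by simp)
  have hZ₂A : Z₂ ∈ KA := by rw [hKA]; exact IntermediateField.subset_adjoin R _ (by simp)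
  have hCK : KC ≤ K₁ := by
    rw [hKC, hK₁, IntermediateField.adjoin_le_iff, Set.singleton_subset_iff]
    exact IntermediateField.subset_adjoin R _ (by simp)
  have hAK : KA ≤ K₁ := by
    rw [hKA, hK₁, IntermediateField.adjoin_le_iff]
    rintro t (rfl | ht)
    · exact IntermediateField.subset_adjoin R _ (by simp)
    · rw [Set.mem_singleton_iff] at ht
      rw [ht]
      exact IntermediateField.subset_adjoin R _ (by simp)
  -- `Z₁`, `Z₂` in the covering field of `Y`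
  have hMZ : ∀ {A : Finset κ} {Z : Ω}, A ⊆ B → ℓ ∣ A.card → A.Nonempty →
      Z ^ ℓ = ∏ e ∈ A, (algebraMap R Ω x - algebraMap κ Ω e) → Mem ℓ κ KC Z := by
    intro A Z hAB hA hAne hZ
    have h1 := sub_maxPro hx hAB hA hAne hB hB3 hZ hY (z := Z)
      ((maxPro ℓ κ (IntermediateField.adjoin R {Z}) Ω).algebraMap_mem
        ⟨Z, IntermediateField.mem_adjoin_simple_self _ _⟩)
    rw [hKC]
    exact maxPro_le hx (prod_R hY) hUY h1
  have hM1 := hMZ h1B hA₁ hA₁ne hZ₁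
  have hM2 := hMZ h2B hA₂ hA₂ne hZ₂
  -- approximation
  have hApC : ∀ W : ValuationSubring Ω, (∀ c : κ, algebraMap κ Ω c ∈ W) → W ≠ ⊤ →
      ∀ t ∈ K₁, Apx KC W t := by
    intro W hκ hW t ht
    rw [hK₁] at ht
    induction ht using IntermediateField.adjoin_induction with
    | mem y hy =>
      rcases hy with rfl | rfl | hy
      · exact hM1.2 W hκ hW
      · exact hM2.2 W hκ hW
      · rw [Set.mem_singleton_iff] at hy
        rw [hy]
        exact Apx.of_mem hYC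
    | algebraMap r => exact Apx.of_mem (algebraMap_mem _ r)
    | add y w _ _ hy hw => exact hy.add hw
    | inv y _ hy => exact hy.inv
    | mul y w _ _ hy hw => exact hy.mul hw
  -- uniformisers
  have hUU : ∀ W : ValuationSubring Ω, (∀ c : κ, algebraMap κ Ω c ∈ W) → W ≠ ⊤ →
      ∃ π₁ π, Unf KC W π₁ ∧ Unf KA W π ∧ W.valuation π = W.valuation π₁ := by
    intro W hκ hW
    obtain ⟨π₁, h1, h2, h3, h4⟩ := Pool.Agent.Y809.PS.k0 ℓ κ R Ω x hx B hB hBne Y hY W hκ (by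
      by_contra hc
      push Not at hc
      exact hW (top_of_R W hc))
    have hU₁ : Unf KC W π₁ := by
      refine ⟨?_, h2, (ValuationSubring.mem_nonunits_iff _).1 h1, ?_⟩
      · rcases h3 with ⟨e, he, rfl, _⟩ | ⟨a, ha, rfl⟩ | rfl
        · exact hYC
        · refine sub_mem (algebraMap_mem _ _) ?_
          rw [IsScalarTower.algebraMap_apply κ R Ω]
          exact algebraMap_mem _ _
        · exact inv_mem (algebraMap_mem _ _)
      · intro z hz hz0
        rw [hKC] at hz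
        obtain ⟨n, hn⟩ := h4 z hz hz0
        refine ⟨n, ?_⟩
        have h5 := (isU_iff W).1 hn
        rw [map_div₀, map_zpow₀] at h5
        rwa [div_eq_one_iff_eq] at h5
        exact zpow_ne_zero _ ((Valuation.pos_iff _).2 h2).ne'
    -- a uniformiser in `KA`
    have hZv : ∀ {A : Finset κ} {Z : Ω} {e : κ}, e ∈ A →
        Z ^ ℓ = ∏ e ∈ A, (algebraMap R Ω x - algebraMap κ Ω e) →
        W.valuation (algebraMap R Ω x - algebraMap κ Ω e) < 1 →
        W.valuation Z ^ ℓ = W.valuation (algebraMap R Ω x - algebraMap κ Ω e) := by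
      classical
      intro A Z e he hZ hlt
      rw [← map_pow, hZ, map_prod, ← Finset.mul_prod_erase A _ he]
      have h5 : ∏ e' ∈ A.erase e, W.valuation (algebraMap R Ω x - algebraMap κ Ω e') = 1 := by
        refine Finset.prod_eq_one fun e' he' => ?_
        have hne : e ≠ e' := fun h => (Finset.ne_of_mem_erase he') h.symm
        have h6 : algebraMap R Ω x - algebraMap κ Ω e' =
            (algebraMap R Ω x - algebraMap κ Ω e) + algebraMap κ Ω (e - e') := by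
          rw [map_sub]; ring
        have h7 : W.valuation (algebraMap κ Ω (e - e')) = 1 := by
          rw [← isU_iff]
          refine ⟨(_root_.map_ne_zero _).2 (sub_ne_zero.2 hne), hκ _, ?_⟩
          rw [← map_inv₀]
          exact hκ _
        rw [h6, Valuation.map_add_eq_of_lt_right _ (by rw [h7]; exact hlt), h7]
      rw [h5, mul_one]
    have hval1 : ∀ z ∈ K₁, z ≠ 0 → ∃ n : ℤ, W.valuation z = W.valuation π₁ ^ n := by
      intro z hz hz0
      exact (hApC W hκ hW z hz).val' hU₁ hz0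
    obtain ⟨π, hπA, hπv⟩ : ∃ π ∈ KA, W.valuation π = W.valuation π₁ := by
      rcases h3 with ⟨e, he, rfl, h5⟩ | ⟨a, ha, h5⟩ | h5
      · -- a branch point
        have h6 := (isU_iff W).1 h5
        have hπℓ : W.valuation (π₁ ^ ℓ) ≠ 0 := by
          rw [map_pow]
          exact pow_ne_zero _ hU₁.pos.ne'
        have h7 : W.valuation (algebraMap R Ω x - algebraMap κ Ω e) = W.valuation π₁ ^ ℓ := by
          rw [map_div₀, div_eq_one_iff_eq hπℓ] at h6
          rw [h6, map_pow]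
        have hlt : W.valuation (algebraMap R Ω x - algebraMap κ Ω e) < 1 := by
          rw [h7]
          exact pow_lt_one₀ zero_le hU₁.lt hℓ0
        have hinj : ∀ Z : Ω, W.valuation Z ^ ℓ = W.valuation π₁ ^ ℓ →
            W.valuation Z = W.valuation π₁ := fun Z h =>
          (pow_left_inj₀ zero_le zero_le hℓ0).1 h
        rcases hcov e he with hA | hA
        · exact ⟨Z₁, hZ₁A, hinj _ (by rw [hZv hA hZ₁ hlt, h7])⟩
        · exact ⟨Z₂, hZ₂A, hinj _ (by rw [hZv hA hZ₂ hlt, h7])⟩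
      · refine ⟨π₁, ?_, rfl⟩
        rw [h5]
        refine sub_mem (algebraMap_mem _ _) ?_
        rw [IsScalarTower.algebraMap_apply κ R Ω]
        exact algebraMap_mem _ _
      · refine ⟨π₁, ?_, rfl⟩
        rw [h5]
        exact inv_mem (algebraMap_mem _ _)
    refine ⟨π₁, π, hU₁, ⟨hπA, ?_, by rw [hπv]; exact hU₁.lt, fun z hz hz0 => ?_⟩, hπv⟩
    · rw [← W.valuation.ne_zero_iff, hπv]
      exact hU₁.pos.ne'
    · rw [hπv]
      exact hval1 z (hAK hz) hz0
  have hHUA : HU κ KA := fun W hκ hW => by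
    obtain ⟨π₁, π, h1, h2, h3⟩ := hUU W hκ hW
    exact ⟨π, h2⟩
  have hRA : ∀ r : R, algebraMap R Ω r ∈ KA := fun r => KA.algebraMap_mem r
  have hApA : ∀ W : ValuationSubring Ω, (∀ c : κ, algebraMap κ Ω c ∈ W) → W ≠ ⊤ →
      ∀ t ∈ K₁, Apx KA W t := by
    intro W hκ hW t ht
    obtain ⟨π₁, π, h1, h2, h3⟩ := hUU W hκ hW
    have hY0 : Y ≠ 0 ∨ Y = 0 := ne_or_eq _ _
    have hAY : Apx KA W Y := by
      rcases hY0 with hY0 | hY0
      · obtain ⟨n, hn⟩ := h1.val Y hYC hY0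
        refine Apx.root h2 (hres hx KA W hκ hW) hℓ0 (vl hℓ0 W hκ) Y (Apx.of_mem ?_) n ?_
        · rw [prod_R hY]
          exact hRA _
        · rw [map_pow, hn, h3, ← zpow_natCast, ← zpow_mul, mul_comm]
      · rw [hY0]
        exact Apx.of_mem (zero_mem _)
    rw [hK₁] at ht
    induction ht using IntermediateField.adjoin_induction with
    | mem y hy =>
      rcases hy with rfl | rfl | hy
      · exact Apx.of_mem hZ₁A
      · exact Apx.of_mem hZ₂A
      · rw [Set.mem_singleton_iff] at hy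
        rw [hy]
        exact hAY
    | algebraMap r => exact Apx.of_mem (algebraMap_mem _ r)
    | add y w _ _ hy hw => exact hy.add hw
    | inv y _ hy => exact hy.inv
    | mul y w _ _ hy hw => exact hy.mul hw
  have hMem : Mem ℓ κ KA z ↔ Mem ℓ κ KC z := by
    unfold Mem
    refine and_congr_right fun _ => forall_congr' fun W => forall_congr' fun hκ =>
      forall_congr' fun hW => ?_
    obtain ⟨π₁, π, h1, h2, h3⟩ := hUU W hκ hW
    exact (Pool.Agent.Y158.FQ.apx_trans (fun z hz => hAK hz) h2 (hApA W hκ hW) z).symm.trans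
      (Pool.Agent.Y158.FQ.apx_trans (fun z hz => hCK hz) h1 (hApC W hκ hW) z)
  -- `KA` is a Galois extension of exponent `ℓ`
  have hgenZ : ∀ (γ : Ω ≃ₐ[R] Ω) (Z : Ω), (∃ f : R, Z ^ ℓ = algebraMap R Ω f) →
      (∃ c : R, γ Z = algebraMap R Ω c * Z) ∧ (γ ^ ℓ) Z = Z := by
    rintro γ Z ⟨f, hf⟩
    refine ⟨?_, root_fix hμ γ Z (by rw [hf, γ.commutes])⟩
    by_cases h0 : Z = 0
    · exact ⟨1, by rw [h0, map_zero, mul_zero]⟩
    · obtain ⟨c, hc⟩ := hμ (γ Z / Z) (by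
        rw [div_pow, ← map_pow, hf, γ.commutes, div_self]
        rw [← hf]; exact pow_ne_zero _ h0)
      exact ⟨c, by rw [hc, div_mul_cancel₀ _ h0]⟩
  have hst : ∀ (γ : Ω ≃ₐ[R] Ω), ∀ t ∈ KA, γ t ∈ KA := by
    intro γ t ht
    rw [hKA] at ht
    induction ht using IntermediateField.adjoin_induction with
    | mem y hy =>
      rcases hy with rfl | hy
      · obtain ⟨⟨c, hc⟩, -⟩ := hgenZ γ _ ⟨_, prod_R hZ₁⟩
        rw [hc]
        exact mul_mem (hRA _) hZ₁A
      · rw [Set.mem_singleton_iff] at hy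
        obtain ⟨⟨c, hc⟩, -⟩ := hgenZ γ _ ⟨_, prod_R hZ₂⟩
        rw [hy, hc]
        exact mul_mem (hRA _) hZ₂A
    | algebraMap r => rw [γ.commutes]; exact algebraMap_mem _ _
    | add y w _ _ hy hw => rw [map_add]; exact add_mem hy hw
    | inv y _ hy => rw [map_inv₀]; exact inv_mem hy
    | mul y w _ _ hy hw => rw [map_mul]; exact mul_mem hy hw
  have hm : ∀ (γ : Ω ≃ₐ[R] Ω), ∀ t ∈ KA, (γ ^ (ℓ ^ 1)) t = t := by
    intro γ t ht
    rw [pow_one]
    rw [hKA] at ht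
    induction ht using IntermediateField.adjoin_induction with
    | mem y hy =>
      rcases hy with rfl | hy
      · exact (hgenZ γ _ ⟨_, prod_R hZ₁⟩).2
      · rw [Set.mem_singleton_iff] at hy
        rw [hy]
        exact (hgenZ γ _ ⟨_, prod_R hZ₂⟩).2
    | algebraMap r => exact (γ ^ ℓ).commutes r
    | add y w _ _ hy hw => rw [map_add, hy, hw]
    | inv y _ hy => rw [map_inv₀, hy]
    | mul y w _ _ hy hw => rw [map_mul, hy, hw]
  have h1 : z ∈ maxPro ℓ κ KA Ω ↔ Mem ℓ κ KA z :=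
    ⟨fun h => maxPro_le' hx hst hm hHUA h, fun h => le_maxPro' hst hm hHUA h⟩
  have h2 : z ∈ maxPro ℓ κ KC Ω ↔ Mem ℓ κ KC z := by
    rw [hKC]
    exact ⟨fun h => maxPro_le hx (prod_R hY) hUY h, fun h => le_maxPro (prod_R hY) hUY h⟩
  rw [← hKA, ← hKC, h1, h2, hMem]

end tow

end Pool.Agent.K3h82.FQ4
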